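import Mathlib

/-!
# Products of linear factors over rings in which `8 = 0`
-/

set_option autoImplicit false

open Polynomial

namespace Pool.Agent.H62.FF

variable {T : Type*} [CommRing T]

/-- A monic polynomial of degree `n` with `n` roots whose differences are units is the product of the
corresponding linear factors. -/
theorem eq_prod_of_roots {n : ℕ} (v : Fin n → T) (hv : ∀ i j, i ≠ j → IsUnit (v i - v j))
    (F : T[X]) (hF : F.Monic) (hn : F.natDegree = n) (hr : ∀ i, F.eval (v i) = 0) :
    F = ∏ i, (X - C (v i)) := by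
  have hdvd : (∏ i, (X - C (v i))) ∣ F := by
    refine Finset.prod_dvd_of_coprime ?_ ?_
    · intro i _ j _ hij
      obtain ⟨u, hu⟩ := hv j i (Ne.symm hij)
      refine ⟨C ((↑u⁻¹ : T)), -C ((↑u⁻¹ : T)), ?_⟩
      have h1 : C ((↑u⁻¹ : T)) * (X - C (v i)) + -C ((↑u⁻¹ : T)) * (X - C (v j))
          = C ((↑u⁻¹ : T) * (v j - v i)) := by
        simp only [C_mul, C_sub]
        ring
      rw [h1, ← hu]
      simp
    · intro i _
      exact dvd_iff_isRoot.mpr (hr i)
  rcases subsingleton_or_nontrivial T with hT | hT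
  · exact Subsingleton.elim _ _
  · have hm : (∏ i, (X - C (v i))).Monic := monic_prod_of_monic _ _ (fun _ _ => monic_X_sub_C _)
    refine eq_of_monic_of_dvd_of_natDegree_le hm hF hdvd ?_
    rw [natDegree_prod_of_monic _ _ (fun _ _ => monic_X_sub_C _)]
    simp [hn]

theorem natDegree_prod_lin [Nontrivial T] {n : ℕ} (v : Fin n → T) :
    (∏ i, (X - C (v i))).natDegree = n := by
  rw [natDegree_prod_of_monic _ _ (fun _ _ => monic_X_sub_C _)]
  simp

theorem monic_prod_lin {n : ℕ} (v : Fin n → T) : (∏ i, (X - C (v i))).Monic :=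
  monic_prod_of_monic _ _ (fun _ _ => monic_X_sub_C _)

theorem eval_derivative_prod_lin {n : ℕ} (v : Fin n → T) (i : Fin n) :
    (derivative (∏ j, (X - C (v j)))).eval (v i) = ∏ j ∈ Finset.univ.erase i, (v i - v j) := by
  classical
  rw [derivative_prod_finset, eval_finsetSum, Finset.sum_eq_single i]
  · simp [eval_prod]
  · intro b _ hb
    rw [eval_mul, eval_prod]
    have : ∏ j ∈ Finset.univ.erase b, eval (v i) (X - C (v j)) = 0 :=
      Finset.prod_eq_zero (i := i) (by simp [Ne.symm hb]) (by simp)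
    rw [this, zero_mul]
  · intro h
    exact absurd (Finset.mem_univ i) h

/-- The resultant of a product of linear factors with a polynomial. -/
theorem resultant_prod_lin [Nontrivial T] {n : ℕ} (v : Fin n → T) (P : T[X]) (D : ℕ)
    (hD : P.natDegree ≤ D) :
    (∏ i, (X - C (v i))).resultant P n D = ∏ i, P.eval (v i) := by
  have h := resultant_prod_left (R := T) Finset.univ (fun i => X - C (v i)) P D (by simp) hD
  rw [natDegree_prod_lin] at h
  rw [h]
  refine Finset.prod_congr rfl (fun i _ => ?_)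
  rw [natDegree_X_sub_C, resultant_X_sub_C_left _ _ _ hD]

/-- The square of the Vandermonde determinant. -/
theorem vandermonde_sq {n : ℕ} (v : Fin n → T) :
    (Matrix.vandermonde v).det ^ 2 =
      (-1) ^ (n * (n - 1) / 2) * ∏ i, ∏ j ∈ Finset.univ.erase i, (v i - v j) := by
  classical
  have hsplit : ∀ i : Fin n, ∏ j ∈ Finset.univ.erase i, (v i - v j) =
      (∏ j ∈ Finset.Ioi i, (v i - v j)) * ∏ j ∈ Finset.Iio i, (v i - v j) := by
    intro i
    rw [← Finset.prod_union]
    · refine Finset.prod_congr ?_ (fun _ _ => rfl)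
      ext j
      simp only [Finset.mem_erase, Finset.mem_univ, and_true, Finset.mem_union, Finset.mem_Ioi,
        Finset.mem_Iio]
      constructor
      · intro h
        rcases lt_or_gt_of_ne h with h | h
        · exact Or.inr h
        · exact Or.inl h
      · rintro (h | h)
        · exact ne_of_gt h
        · exact ne_of_lt h
    · rw [Finset.disjoint_left]
      intro j h1 h2
      simp only [Finset.mem_Ioi, Finset.mem_Iio] at h1 h2
      exact absurd h1 (not_lt.mpr h2.le)
  have hswap : ∏ i : Fin n, ∏ j ∈ Finset.Iio i, (v i - v j) =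
      ∏ i : Fin n, ∏ j ∈ Finset.Ioi i, (v j - v i) := by
    rw [Finset.prod_sigma', Finset.prod_sigma']
    refine Finset.prod_bij' (fun x _ => ⟨x.2, x.1⟩) (fun x _ => ⟨x.2, x.1⟩) ?_ ?_ ?_ ?_ ?_
    all_goals simp
  have hneg : ∏ i : Fin n, ∏ j ∈ Finset.Ioi i, (v i - v j) =
      (-1) ^ (n * (n - 1) / 2) * ∏ i : Fin n, ∏ j ∈ Finset.Ioi i, (v j - v i) := by
    have h1 : ∀ i : Fin n, ∏ j ∈ Finset.Ioi i, (v i - v j) =
        (-1) ^ (n - 1 - (i : ℕ)) * ∏ j ∈ Finset.Ioi i, (v j - v i) := by
      intro i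
      have : ∀ j ∈ Finset.Ioi i, v i - v j = (-1) * (v j - v i) := fun j _ => by ring
      rw [Finset.prod_congr rfl this, Finset.prod_mul_distrib, Finset.prod_const, Fin.card_Ioi]
    rw [Finset.prod_congr rfl (fun i _ => h1 i), Finset.prod_mul_distrib,
      Finset.prod_pow_eq_pow_sum]
    congr 2
    rw [Fin.sum_univ_eq_sum_range (fun i => n - 1 - i) n, Finset.sum_range_reflect (fun i => i) n,
      Finset.sum_range_id]
  rw [Finset.prod_congr rfl (fun i _ => hsplit i), Finset.prod_mul_distrib, hswap, hneg,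
    Matrix.det_vandermonde]
  have hsq : ((-1 : T) ^ (n * (n - 1) / 2)) * (-1) ^ (n * (n - 1) / 2) = 1 := by
    rw [← mul_pow]; simp
  rw [← mul_assoc, ← mul_assoc, hsq, one_mul, sq]

end Pool.Agent.H62.FF
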