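import Mathlib

/-!
# Independent events and disjoint blocks
-/

set_option autoImplicit false
set_option linter.unusedSectionVars false

open MeasureTheory ProbabilityTheory MeasurableSpace

namespace Pool.Agent.H62.FF

variable {Ω ι κ : Type*} [MeasurableSpace Ω] {μ : Measure Ω}

theorem block_compl (A : ι → Set Ω) (hA : ∀ i, MeasurableSet (A i)) (h : iIndepSet A μ)
    (S : Finset ι) (p : ℝ) (hp : ∀ i ∈ S, μ.real (A i) = p) :
    μ.real (⋂ i ∈ S, (A i)ᶜ) = (1 - p) ^ S.card := by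
  have hprob : IsProbabilityMeasure μ := h.isProbabilityMeasure
  have h1 : μ (⋂ i ∈ S, (A i)ᶜ) = ∏ i ∈ S, μ ((A i)ᶜ) :=
    ((iIndepSet_iff_iIndep _ _).mp h).meas_biInter
      (fun i _ => (measurableSet_generateFrom (Set.mem_singleton _)).compl)
  rw [measureReal_def, h1, ENNReal.toReal_prod]
  rw [← Finset.prod_const]
  refine Finset.prod_congr rfl (fun i hi => ?_)
  rw [← measureReal_def, probReal_compl_eq_one_sub (hA i), hp i hi]

theorem meas_inter_disjoint (A : ι → Set Ω) (hA : ∀ i, MeasurableSet (A i)) (h : iIndepSet A μ)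
    {S T : Set ι} (hST : Disjoint S T) (U V : Set Ω)
    (hU : MeasurableSet[⨆ i ∈ S, generateFrom {A i}] U)
    (hV : MeasurableSet[⨆ i ∈ T, generateFrom {A i}] V) : μ (U ∩ V) = μ U * μ V := by
  have h1 : Indep (⨆ i ∈ S, generateFrom {A i}) (⨆ i ∈ T, generateFrom {A i}) μ := by
    refine indep_iSup_of_disjoint ?_ ((iIndepSet_iff_iIndep _ _).mp h) hST
    intro i
    refine generateFrom_le ?_
    rintro t rfl
    exact hA i
  exact (Indep_iff _ _ _).mp h1 U V hU hV

theorem measurable_block (A : ι → Set Ω) (S : Set ι) (B : Finset ι) (hB : ∀ i ∈ B, i ∈ S) :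
    MeasurableSet[⨆ i ∈ S, generateFrom {A i}] (⋂ i ∈ B, (A i)ᶜ) := by
  refine @Finset.measurableSet_biInter Ω ι (⨆ i ∈ S, generateFrom {A i}) _ B (fun i hi => ?_)
  refine @MeasurableSet.compl Ω _ (⨆ i ∈ S, generateFrom {A i}) ?_
  have h1 : generateFrom {A i} ≤ ⨆ i ∈ S, generateFrom {A i} :=
    le_iSup₂_of_le i (hB i hi) le_rfl
  exact h1 _ (measurableSet_generateFrom (Set.mem_singleton _))

theorem blocks_compl (A : ι → Set Ω) (hA : ∀ i, MeasurableSet (A i)) (h : iIndepSet A μ)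
    (R : Finset κ) (B : κ → Finset ι) (hB : ∀ r ∈ R, ∀ s ∈ R, r ≠ s → Disjoint (B r) (B s))
    (P : ℝ) (hP : ∀ r ∈ R, μ.real (⋂ i ∈ B r, (A i)ᶜ) = P) :
    μ.real (⋂ r ∈ R, (⋂ i ∈ B r, (A i)ᶜ)ᶜ) = (1 - P) ^ R.card := by
  classical
  have hprob : IsProbabilityMeasure μ := h.isProbabilityMeasure
  have hmeas : ∀ r, MeasurableSet (⋂ i ∈ B r, (A i)ᶜ) := fun r =>
    Finset.measurableSet_biInter _ (fun i _ => (hA i).compl)
  induction R using Finset.induction_on with
  | empty => simp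
  | insert r R hr ih =>
    rw [Finset.set_biInter_insert, Finset.card_insert_of_notMem hr]
    have ih' := ih (fun r hr s hs => hB r (Finset.mem_insert_of_mem hr) s
      (Finset.mem_insert_of_mem hs)) (fun r hr => hP r (Finset.mem_insert_of_mem hr))
    have hdis : Disjoint ((B r : Finset ι) : Set ι) (⋃ s ∈ R, ((B s : Finset ι) : Set ι)) := by
      rw [Set.disjoint_iUnion₂_right]
      intro s hs
      rw [Finset.disjoint_coe]
      exact hB r (Finset.mem_insert_self r R) s (Finset.mem_insert_of_mem hs)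
        (fun h => hr (h ▸ hs))
    have h1 := meas_inter_disjoint A hA h hdis ((⋂ i ∈ B r, (A i)ᶜ)ᶜ)
      (⋂ r ∈ R, (⋂ i ∈ B r, (A i)ᶜ)ᶜ)
      (@MeasurableSet.compl Ω _ (⨆ i ∈ ((B r : Finset ι) : Set ι), generateFrom {A i})
        (measurable_block A _ (B r) (fun i hi => hi)))
      (@Finset.measurableSet_biInter Ω κ (⨆ i ∈ ⋃ s ∈ R, ((B s : Finset ι) : Set ι),
        generateFrom {A i}) _ R (fun s hs =>
        @MeasurableSet.compl Ω _ (⨆ i ∈ ⋃ s ∈ R, ((B s : Finset ι) : Set ι), generateFrom {A i})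
        (measurable_block A _ (B s) (fun i hi => Set.mem_iUnion₂.mpr ⟨s, hs, hi⟩))))
    rw [measureReal_def, h1, ENNReal.toReal_mul, ← measureReal_def, ← measureReal_def, ih',
      probReal_compl_eq_one_sub (hmeas r), hP r (Finset.mem_insert_self r R), pow_succ]
    ring

end Pool.Agent.H62.FF
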