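import Pool.Agent.H62.FF.Alg

/-!
# A ring with `8 = 0` over a field of characteristic two
-/

set_option autoImplicit false

open Polynomial

namespace Pool.Agent.H62.FF

/-- A ring `T` with `8 = 0` and residue field `k = T / 2 T`, flat over `ZMod 8` in the weak sense
`h4`. -/
structure Dat (T k : Type*) [CommRing T] [Field k] where
  /-- the residue map -/
  π : T →+* k
  surj : Function.Surjective π
  h8 : (8 : T) = 0
  ker : ∀ x, π x = 0 → ∃ y, x = 2 * y
  h4 : ∀ x, 4 * x = 0 → π x = 0

namespace Dat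

variable {T k : Type*} [CommRing T] [Field k] (D : Dat T k)

include D

theorem nontrivial : Nontrivial T := by
  refine ⟨⟨0, 1, fun h => ?_⟩⟩
  have := congrArg D.π h
  rw [map_zero, map_one] at this
  exact zero_ne_one this

theorem two_k : (2 : k) = 0 := by
  have h : (8 : k) = 0 := by
    have := congrArg D.π D.h8
    rwa [map_ofNat, map_zero] at this
  have h2 : (2 : k) ^ 3 = 0 := by
    rw [← h]; norm_num
  exact pow_eq_zero_iff (by norm_num) |>.mp h2

theorem two_mul_k (x : k) : 2 * x = 0 := by rw [D.two_k, zero_mul]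

theorem neg_k (x : k) : -x = x := by
  linear_combination (-1) * D.two_mul_k x

theorem π_two_mul (y : T) : D.π (2 * y) = 0 := by
  rw [map_mul, map_ofNat, D.two_mul_k]

theorem nilp (x : T) (h : D.π x = 0) : IsNilpotent x := by
  obtain ⟨y, rfl⟩ := D.ker x h
  refine ⟨3, ?_⟩
  linear_combination (y ^ 3) * D.h8

theorem π_eq_zero_of_nilp (x : T) (h : IsNilpotent x) : D.π x = 0 := by
  obtain ⟨n, hn⟩ := h
  have := congrArg D.π hn
  rw [map_pow, map_zero] at this
  exact eq_zero_of_pow_eq_zero this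

theorem isUnit (x : T) (h : D.π x ≠ 0) : IsUnit x := by
  obtain ⟨y, hy⟩ := D.surj (D.π x)⁻¹
  obtain ⟨w, hw⟩ := D.ker (x * y - 1) (by rw [map_sub, map_mul, hy, map_one, mul_inv_cancel₀ h,
    sub_self])
  have h1 : IsUnit (x * y) := by
    have h2 : x * y = 1 + 2 * w := by linear_combination hw
    rw [h2]
    refine isUnit_iff_exists_inv.mpr ⟨1 - 2 * w + 4 * w ^ 2, ?_⟩
    linear_combination (w ^ 3) * D.h8
  exact isUnit_of_mul_isUnit_left h1

theorem four_congr (x y : T) (h : D.π x = D.π y) : 4 * x = 4 * y := by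
  obtain ⟨w, hw⟩ := D.ker (x - y) (by rw [map_sub, h, sub_self])
  linear_combination 4 * hw + w * D.h8

theorem one_add_four_mul (a b c : T) (h : D.π a + D.π b = D.π c) :
    (1 + 4 * a) * (1 + 4 * b) = 1 + 4 * c := by
  have h1 : 4 * (a + b) = 4 * c := D.four_congr _ _ (by rw [map_add, h])
  linear_combination h1 + (2 * a * b) * D.h8

theorem prod_add_four {ι : Type*} (S : Finset ι) (s t : ι → T) (hs : ∀ i ∈ S, D.π (s i) ≠ 0)
    (c : T) (hc : D.π c = ∑ i ∈ S, D.π (t i) / D.π (s i)) :
    ∏ i ∈ S, (s i + 4 * t i) = (1 + 4 * c) * ∏ i ∈ S, s i := by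
  classical
  induction S using Finset.induction_on generalizing c with
  | empty =>
    simp only [Finset.sum_empty, Finset.prod_empty, mul_one] at hc ⊢
    have := D.four_congr c 0 (by rw [hc, map_zero])
    rw [this]; ring
  | insert a S ha ih =>
    rw [Finset.prod_insert ha, Finset.prod_insert ha]
    rw [Finset.sum_insert ha] at hc
    obtain ⟨c₁, hc₁⟩ := D.surj (∑ i ∈ S, D.π (t i) / D.π (s i))
    obtain ⟨c₀, hc₀⟩ := D.surj (D.π (t a) / D.π (s a))
    have hsa := hs a (Finset.mem_insert_self a S)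
    rw [ih (fun i hi => hs i (Finset.mem_insert_of_mem hi)) c₁ hc₁]
    have h1 : 4 * t a = 4 * (s a * c₀) := by
      refine D.four_congr _ _ ?_
      rw [map_mul, hc₀, mul_div_cancel₀ _ hsa]
    have h2 := D.one_add_four_mul c₀ c₁ c (by rw [hc₀, hc₁, hc])
    rw [h1]
    linear_combination (s a * ∏ i ∈ S, s i) * h2

theorem exists_poly (p : k[X]) : ∃ P : T[X], P.map D.π = p :=
  Polynomial.map_surjective D.π D.surj p

theorem exists_two_mul (P : T[X]) (h : P.map D.π = 0) : ∃ B : T[X], P = 2 * B := by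
  have h1 : ∀ i, ∃ y, P.coeff i = 2 * y := by
    intro i
    refine D.ker _ ?_
    have := congrArg (fun p : k[X] => p.coeff i) h
    simpa [coeff_map] using this
  choose y hy using h1
  refine ⟨∑ i ∈ Finset.range (P.natDegree + 1), C (y i) * X ^ i, ?_⟩
  conv_lhs => rw [P.as_sum_range_C_mul_X_pow]
  rw [Finset.mul_sum]
  refine Finset.sum_congr rfl (fun i _ => ?_)
  rw [hy i, C_mul, C_ofNat]
  ring

theorem exists_eq_add (P Q : T[X]) (h : P.map D.π = Q.map D.π) : ∃ B : T[X], P = Q + 2 * B := by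
  obtain ⟨B, hB⟩ := D.exists_two_mul (P - Q) (by rw [Polynomial.map_sub, h, sub_self])
  exact ⟨B, by linear_combination hB⟩

end Dat

/-- Lagrange interpolation: the coefficient of degree `n - 1`. -/
theorem sum_div_derivative {k : Type*} [Field k] {n : ℕ} (α : Fin n → k)
    (hα : Function.Injective α) (p : k[X]) (hp : p.natDegree < n) :
    ∑ i, p.eval (α i) / (derivative (∏ j, (X - C (α j)))).eval (α i) = p.coeff (n - 1) := by
  have h := Lagrange.coeff_eq_sum (s := Finset.univ) (v := α) (hα.injOn) (P := p) (by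
    rw [Finset.card_univ, Fintype.card_fin]
    exact lt_of_le_of_lt degree_le_natDegree (by exact_mod_cast hp))
  rw [Finset.card_univ, Fintype.card_fin] at h
  rw [h]
  refine Finset.sum_congr rfl (fun i _ => ?_)
  rw [eval_derivative_prod_lin]

theorem map_prod_lin {T k : Type*} [CommRing T] [Field k] (π : T →+* k) {n : ℕ} (v : Fin n → T) :
    (∏ i, (X - C (v i))).map π = ∏ i, (X - C (π (v i))) := by
  rw [Polynomial.map_prod]
  simp

theorem eval_derivative_ne_zero {k : Type*} [Field k] {n : ℕ} (α : Fin n → k)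
    (hα : Function.Injective α) (i : Fin n) :
    (derivative (∏ j, (X - C (α j)))).eval (α i) ≠ 0 := by
  rw [eval_derivative_prod_lin]
  refine Finset.prod_ne_zero_iff.mpr (fun j hj => ?_)
  rw [sub_ne_zero]
  intro h
  exact (Finset.ne_of_mem_erase hj) (hα h).symm

end Pool.Agent.H62.FF
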