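import Mathlib

/-!
# Gaps in sets of polynomials over a finite field and Cramér's random model
-/

set_option autoImplicit false

open Polynomial MeasureTheory ProbabilityTheory

namespace Pool.Agent.H62.FF

/-- For some monic polynomial `f` of degree `n > m` the interval `{f + g : deg g < m}`, which
consists of `|F| ^ m` monic polynomials of degree `n`, contains no element of `P`. -/
def GapIn {F : Type*} [Field F] (P : Set F[X]) (n m : ℕ) : Prop :=
  m < n ∧ ∃ f : F[X], f.Monic ∧ f.natDegree = n ∧ ∀ g : F[X], g.degree < m → f + g ∉ P

/-- Cramér's random model for the irreducible polynomials over `F`: independent events `A f`, where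
`A f` has probability `1 / deg f` for every nonconstant monic polynomial `f`. -/
structure CramerModel {F Ω : Type*} [Field F] [MeasurableSpace Ω] (μ : Measure Ω)
    (A : F[X] → Set Ω) : Prop where
  meas : ∀ f, MeasurableSet (A f)
  indep : iIndepSet A μ
  prob : ∀ f : F[X], f.Monic → 1 ≤ f.natDegree → μ.real (A f) = 1 / f.natDegree

end Pool.Agent.H62.FF
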