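import Pool.Agent.H62.FF.Model

/-!
# Existence of Cramér's random model
-/

set_option autoImplicit false

open Polynomial MeasureTheory ProbabilityTheory
open scoped unitInterval

namespace Pool.Agent.H62.FF

theorem iIndepSet_preimage {Ω ι κ : Type*} [MeasurableSpace Ω] [MeasurableSpace κ]
    {μ : Measure Ω} (X : ι → Ω → κ) (h : iIndepFun X μ) (B : Set κ) (hB : MeasurableSet B) :
    iIndepSet (fun i => X i ⁻¹' B) μ := by
  rw [iIndepSet_iff]
  intro s f H
  refine h.meas_biInter (fun i hi => ?_)
  have h1 : MeasurableSpace.generateFrom {X i ⁻¹' B} ≤ MeasurableSpace.comap (X i) inferInstance :=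
    MeasurableSpace.generateFrom_le (by rintro t rfl; exact ⟨B, hB, rfl⟩)
  exact h1 _ (H i hi)

/-- Cramér's random model exists. -/
theorem exists_cramerModel (F : Type*) [Field F] :
    ∃ (μ : Measure (F[X] → Bool)) (A : F[X] → Set (F[X] → Bool)), CramerModel μ A := by
  have hp : ∀ f : F[X], (1 / (f.natDegree : ℝ)) ∈ I := by
    intro f
    refine ⟨by positivity, ?_⟩
    rcases Nat.eq_zero_or_pos f.natDegree with h | h
    · rw [h]; simp
    · rw [div_le_one (by exact_mod_cast h)]
      exact_mod_cast h
  let P : F[X] → Measure Bool := fun f => bernoulliMeasure true false ⟨_, hp f⟩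
  have hP : ∀ f, IsProbabilityMeasure (P f) := fun f => inferInstance
  refine ⟨Measure.infinitePi P, fun f => (fun ω => ω f) ⁻¹' {true}, ?_, ?_, ?_⟩
  · intro f
    exact (measurable_pi_apply f) (MeasurableSet.singleton _)
  · exact iIndepSet_preimage (fun (f : F[X]) (ω : F[X] → Bool) => ω f)
      (iIndepFun_infinitePi (X := fun _ b => b) (fun _ => measurable_id)) {true}
      (MeasurableSet.singleton _)
  · intro f _ _
    have h1 : (Measure.infinitePi P) ((fun ω => ω f) ⁻¹' {true}) = P f {true} := by
      rw [← Measure.infinitePi_map_eval P f,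
        Measure.map_apply (measurable_pi_apply f) (MeasurableSet.singleton _)]
    rw [measureReal_def, h1, ← measureReal_def]
    show (bernoulliMeasure true false ⟨_, hp f⟩).real {true} = _
    rw [bernoulliMeasure_real_apply_of_mem_of_notMem _ (MeasurableSet.singleton _) rfl (by simp)]

end Pool.Agent.H62.FF
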