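import Pool.Agent.H62.FF.Main
import Pool.Agent.H62.FF.Defs

/-!
# Intervals without irreducible polynomials
-/

set_option autoImplicit false

open Polynomial

namespace Pool.Agent.H62.FF

universe u

/-- Some interval of `|F| ^ m` monic polynomials of degree `n` over `F` contains no irreducible
polynomial. -/
abbrev HasGap (F : Type*) [Field F] (n m : ℕ) : Prop := GapIn {f : F[X] | Irreducible f} n m

/-! ### Signs -/

theorem sgn_tri (m : ℕ) : (-1 : ℤ) ^ (m * (m - 1) / 2) = if m % 4 < 2 then 1 else -1 := by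
  induction m using Nat.strong_induction_on with
  | _ m ih =>
    rcases lt_or_ge m 4 with h | h
    · interval_cases m <;> simp
    · obtain ⟨m, rfl⟩ := Nat.exists_eq_add_of_le' h
      have h1 : (m + 4) * (m + 4 - 1) / 2 = m * (m - 1) / 2 + 2 * (2 * m + 3) := by
        have h2 : (m + 4) * (m + 4 - 1) = m * (m - 1) + 2 * (2 * (2 * m + 3)) := by
          rcases m with _ | m
          · rfl
          · simp only [Nat.add_sub_cancel]
            have : m + 1 + 4 - 1 = m + 4 := by omega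
            rw [this]
            ring
        rw [h2, Nat.add_mul_div_left _ _ (by norm_num)]
      rw [h1, pow_add, ih m (by omega), pow_mul]
      have h3 : (m + 4) % 4 = m % 4 := by omega
      rw [h3]
      simp

/-- The sign condition. -/
def Kap (a m d : ℕ) : Prop :=
  ∃ t : ℤ, (-1) ^ ((4 * d + a) * (4 * d + a - 1) / 2 + (4 * d + a) + m * (m - 1) / 2) *
      (1 + 4 * (d : ℤ)) * ((m : ℤ) - a) = 1 + 8 * t

theorem kap_of (a m d : ℕ) (s x y : ℤ)
    (hs : (if (4 * d + a) % 4 < 2 then (1 : ℤ) else -1) * (if a % 2 = 0 then 1 else -1) *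
      (if m % 4 < 2 then 1 else -1) = s)
    (hx : (1 + 4 * (d : ℤ)) % 8 = x) (hy : ((m : ℤ) - a) % 8 = y)
    (h : (s * x * y) % 8 = 1) : Kap a m d := by
  have h1 : (-1 : ℤ) ^ (4 * d + a) = if a % 2 = 0 then 1 else -1 := by
    rw [pow_add, pow_mul]
    split_ifs with h2
    · rw [(Nat.even_iff.mpr h2).neg_one_pow]; norm_num
    · rw [(Nat.odd_iff.mpr (by omega : a % 2 = 1)).neg_one_pow]; norm_num
  have h2 : (s * (1 + 4 * (d : ℤ)) * ((m : ℤ) - a)) % 8 = 1 := by
    have h3 : s * (1 + 4 * (d : ℤ)) * ((m : ℤ) - a) ≡ s * x * y [ZMOD 8] := by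
      rw [← hx, ← hy]
      exact Int.ModEq.mul (Int.ModEq.mul_left _ (Int.mod_modEq _ _).symm) (Int.mod_modEq _ _).symm
    exact Eq.trans h3 h
  refine ⟨(s * (1 + 4 * (d : ℤ)) * ((m : ℤ) - a)) / 8, ?_⟩
  rw [pow_add, pow_add, sgn_tri, sgn_tri, h1, hs]
  have := Int.emod_add_mul_ediv (s * (1 + 4 * (d : ℤ)) * ((m : ℤ) - a)) 8
  rw [h2] at this
  exact this.symm

/-- Among `z` and `z - 2` one satisfies the sign condition. -/
theorem exists_kap (a d z₀ : ℕ) (ha : a < 4) (hz₀ : 3 ≤ z₀) :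
    ∃ z m, z₀ - 2 ≤ z ∧ z ≤ z₀ ∧ 1 ≤ z ∧ ((Odd a ∧ m = 2 * z) ∨ (Even a ∧ m = 2 * z + 1)) ∧
      Kap a m d := by
  obtain ⟨p, hp, e, hd⟩ : ∃ p, p < 2 ∧ ∃ e, d = 2 * e + p := ⟨d % 2, by omega, d / 2, by omega⟩
  obtain ⟨r, hr, v, hv⟩ : ∃ r, r < 4 ∧ ∃ v, z₀ = 4 * v + r := ⟨z₀ % 4, by omega, z₀ / 4, by omega⟩
  interval_cases a <;> interval_cases r <;> interval_cases p
  · exact ⟨z₀, 2 * z₀ + 1, by omega, by omega, by omega, Or.inr ⟨by decide, rfl⟩,
      kap_of _ _ _ (1) 1 1
        (by split_ifs <;> first | rfl | (exfalso; omega)) (by omega) (by omega) (by norm_num)⟩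
  · exact ⟨(z₀ - 2), 2 * (z₀ - 2) + 1, by omega, by omega, by omega, Or.inr ⟨by decide, rfl⟩,
      kap_of _ _ _ (1) 5 5
        (by split_ifs <;> first | rfl | (exfalso; omega)) (by omega) (by omega) (by norm_num)⟩
  · exact ⟨(z₀ - 2), 2 * (z₀ - 2) + 1, by omega, by omega, by omega, Or.inr ⟨by decide, rfl⟩,
      kap_of _ _ _ (-1) 1 7
        (by split_ifs <;> first | rfl | (exfalso; omega)) (by omega) (by omega) (by norm_num)⟩
  · exact ⟨z₀, 2 * z₀ + 1, by omega, by omega, by omega, Or.inr ⟨by decide, rfl⟩,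
      kap_of _ _ _ (-1) 5 3
        (by split_ifs <;> first | rfl | (exfalso; omega)) (by omega) (by omega) (by norm_num)⟩
  · exact ⟨(z₀ - 2), 2 * (z₀ - 2) + 1, by omega, by omega, by omega, Or.inr ⟨by decide, rfl⟩,
      kap_of _ _ _ (1) 1 1
        (by split_ifs <;> first | rfl | (exfalso; omega)) (by omega) (by omega) (by norm_num)⟩
  · exact ⟨z₀, 2 * z₀ + 1, by omega, by omega, by omega, Or.inr ⟨by decide, rfl⟩,
      kap_of _ _ _ (1) 5 5
        (by split_ifs <;> first | rfl | (exfalso; omega)) (by omega) (by omega) (by norm_num)⟩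
  · exact ⟨z₀, 2 * z₀ + 1, by omega, by omega, by omega, Or.inr ⟨by decide, rfl⟩,
      kap_of _ _ _ (-1) 1 7
        (by split_ifs <;> first | rfl | (exfalso; omega)) (by omega) (by omega) (by norm_num)⟩
  · exact ⟨(z₀ - 2), 2 * (z₀ - 2) + 1, by omega, by omega, by omega, Or.inr ⟨by decide, rfl⟩,
      kap_of _ _ _ (-1) 5 3
        (by split_ifs <;> first | rfl | (exfalso; omega)) (by omega) (by omega) (by norm_num)⟩
  · exact ⟨z₀, 2 * z₀, by omega, by omega, by omega, Or.inl ⟨by decide, rfl⟩,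
      kap_of _ _ _ (-1) 1 7
        (by split_ifs <;> first | rfl | (exfalso; omega)) (by omega) (by omega) (by norm_num)⟩
  · exact ⟨(z₀ - 2), 2 * (z₀ - 2), by omega, by omega, by omega, Or.inl ⟨by decide, rfl⟩,
      kap_of _ _ _ (-1) 5 3
        (by split_ifs <;> first | rfl | (exfalso; omega)) (by omega) (by omega) (by norm_num)⟩
  · exact ⟨z₀, 2 * z₀, by omega, by omega, by omega, Or.inl ⟨by decide, rfl⟩,
      kap_of _ _ _ (1) 1 1
        (by split_ifs <;> first | rfl | (exfalso; omega)) (by omega) (by omega) (by norm_num)⟩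
  · exact ⟨(z₀ - 2), 2 * (z₀ - 2), by omega, by omega, by omega, Or.inl ⟨by decide, rfl⟩,
      kap_of _ _ _ (1) 5 5
        (by split_ifs <;> first | rfl | (exfalso; omega)) (by omega) (by omega) (by norm_num)⟩
  · exact ⟨(z₀ - 2), 2 * (z₀ - 2), by omega, by omega, by omega, Or.inl ⟨by decide, rfl⟩,
      kap_of _ _ _ (-1) 1 7
        (by split_ifs <;> first | rfl | (exfalso; omega)) (by omega) (by omega) (by norm_num)⟩
  · exact ⟨z₀, 2 * z₀, by omega, by omega, by omega, Or.inl ⟨by decide, rfl⟩,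
      kap_of _ _ _ (-1) 5 3
        (by split_ifs <;> first | rfl | (exfalso; omega)) (by omega) (by omega) (by norm_num)⟩
  · exact ⟨(z₀ - 2), 2 * (z₀ - 2), by omega, by omega, by omega, Or.inl ⟨by decide, rfl⟩,
      kap_of _ _ _ (1) 1 1
        (by split_ifs <;> first | rfl | (exfalso; omega)) (by omega) (by omega) (by norm_num)⟩
  · exact ⟨z₀, 2 * z₀, by omega, by omega, by omega, Or.inl ⟨by decide, rfl⟩,
      kap_of _ _ _ (1) 5 5
        (by split_ifs <;> first | rfl | (exfalso; omega)) (by omega) (by omega) (by norm_num)⟩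
  · exact ⟨z₀, 2 * z₀ + 1, by omega, by omega, by omega, Or.inr ⟨by decide, rfl⟩,
      kap_of _ _ _ (-1) 1 7
        (by split_ifs <;> first | rfl | (exfalso; omega)) (by omega) (by omega) (by norm_num)⟩
  · exact ⟨(z₀ - 2), 2 * (z₀ - 2) + 1, by omega, by omega, by omega, Or.inr ⟨by decide, rfl⟩,
      kap_of _ _ _ (-1) 5 3
        (by split_ifs <;> first | rfl | (exfalso; omega)) (by omega) (by omega) (by norm_num)⟩
  · exact ⟨z₀, 2 * z₀ + 1, by omega, by omega, by omega, Or.inr ⟨by decide, rfl⟩,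
      kap_of _ _ _ (1) 1 1
        (by split_ifs <;> first | rfl | (exfalso; omega)) (by omega) (by omega) (by norm_num)⟩
  · exact ⟨(z₀ - 2), 2 * (z₀ - 2) + 1, by omega, by omega, by omega, Or.inr ⟨by decide, rfl⟩,
      kap_of _ _ _ (1) 5 5
        (by split_ifs <;> first | rfl | (exfalso; omega)) (by omega) (by omega) (by norm_num)⟩
  · exact ⟨(z₀ - 2), 2 * (z₀ - 2) + 1, by omega, by omega, by omega, Or.inr ⟨by decide, rfl⟩,
      kap_of _ _ _ (-1) 1 7
        (by split_ifs <;> first | rfl | (exfalso; omega)) (by omega) (by omega) (by norm_num)⟩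
  · exact ⟨z₀, 2 * z₀ + 1, by omega, by omega, by omega, Or.inr ⟨by decide, rfl⟩,
      kap_of _ _ _ (-1) 5 3
        (by split_ifs <;> first | rfl | (exfalso; omega)) (by omega) (by omega) (by norm_num)⟩
  · exact ⟨(z₀ - 2), 2 * (z₀ - 2) + 1, by omega, by omega, by omega, Or.inr ⟨by decide, rfl⟩,
      kap_of _ _ _ (1) 1 1
        (by split_ifs <;> first | rfl | (exfalso; omega)) (by omega) (by omega) (by norm_num)⟩
  · exact ⟨z₀, 2 * z₀ + 1, by omega, by omega, by omega, Or.inr ⟨by decide, rfl⟩,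
      kap_of _ _ _ (1) 5 5
        (by split_ifs <;> first | rfl | (exfalso; omega)) (by omega) (by omega) (by norm_num)⟩
  · exact ⟨(z₀ - 2), 2 * (z₀ - 2), by omega, by omega, by omega, Or.inl ⟨by decide, rfl⟩,
      kap_of _ _ _ (1) 1 1
        (by split_ifs <;> first | rfl | (exfalso; omega)) (by omega) (by omega) (by norm_num)⟩
  · exact ⟨z₀, 2 * z₀, by omega, by omega, by omega, Or.inl ⟨by decide, rfl⟩,
      kap_of _ _ _ (1) 5 5
        (by split_ifs <;> first | rfl | (exfalso; omega)) (by omega) (by omega) (by norm_num)⟩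
  · exact ⟨z₀, 2 * z₀, by omega, by omega, by omega, Or.inl ⟨by decide, rfl⟩,
      kap_of _ _ _ (-1) 1 7
        (by split_ifs <;> first | rfl | (exfalso; omega)) (by omega) (by omega) (by norm_num)⟩
  · exact ⟨(z₀ - 2), 2 * (z₀ - 2), by omega, by omega, by omega, Or.inl ⟨by decide, rfl⟩,
      kap_of _ _ _ (-1) 5 3
        (by split_ifs <;> first | rfl | (exfalso; omega)) (by omega) (by omega) (by norm_num)⟩
  · exact ⟨z₀, 2 * z₀, by omega, by omega, by omega, Or.inl ⟨by decide, rfl⟩,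
      kap_of _ _ _ (1) 1 1
        (by split_ifs <;> first | rfl | (exfalso; omega)) (by omega) (by omega) (by norm_num)⟩
  · exact ⟨(z₀ - 2), 2 * (z₀ - 2), by omega, by omega, by omega, Or.inl ⟨by decide, rfl⟩,
      kap_of _ _ _ (1) 5 5
        (by split_ifs <;> first | rfl | (exfalso; omega)) (by omega) (by omega) (by norm_num)⟩
  · exact ⟨(z₀ - 2), 2 * (z₀ - 2), by omega, by omega, by omega, Or.inl ⟨by decide, rfl⟩,
      kap_of _ _ _ (-1) 1 7
        (by split_ifs <;> first | rfl | (exfalso; omega)) (by omega) (by omega) (by norm_num)⟩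
  · exact ⟨z₀, 2 * z₀, by omega, by omega, by omega, Or.inl ⟨by decide, rfl⟩,
      kap_of _ _ _ (-1) 5 3
        (by split_ifs <;> first | rfl | (exfalso; omega)) (by omega) (by omega) (by norm_num)⟩

/-! ### Sums of powers -/

/-- `1 + q + ... + q ^ z`. -/
def S (q z : ℕ) : ℕ := ∑ j ∈ Finset.range (z + 1), q ^ j

theorem S_succ (q z : ℕ) : S q (z + 1) = S q z + q ^ (z + 1) := by
  rw [S, S, Finset.sum_range_succ]

theorem S_mul (q z : ℕ) (hq : 1 ≤ q) : (q - 1) * S q z + 1 = q ^ (z + 1) := by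
  induction z with
  | zero => simp [S]; omega
  | succ z ih =>
    rw [S_succ, mul_add, add_right_comm, ih]
    obtain ⟨r, rfl⟩ := Nat.exists_eq_add_of_le' hq
    rw [Nat.add_sub_cancel, pow_succ (r + 1) (z + 1)]
    ring

theorem S_lt (q z : ℕ) (hq : 2 ≤ q) : S q z < q ^ (z + 1) := by
  have h := S_mul q z (by omega)
  have h1 : 1 * S q z ≤ (q - 1) * S q z := Nat.mul_le_mul_right _ (by omega)
  omega

theorem le_S (q z : ℕ) (hq : 2 ≤ q) : z + 1 ≤ S q z := by
  induction z with
  | zero => simp [S]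
  | succ z ih =>
    rw [S_succ]
    have : 1 ≤ q ^ (z + 1) := Nat.one_le_pow _ _ (by omega)
    omega

theorem S_odd (q z : ℕ) (hq : Even q) : S q z % 2 = 1 := by
  induction z with
  | zero => simp [S]
  | succ z ih =>
    rw [S_succ]
    have : q ^ (z + 1) % 2 = 0 := Nat.even_iff.mp (hq.pow_of_ne_zero (by omega))
    omega

section
variable {F : Type u} [Field F] [Fintype F]

theorem two_le_card : 2 ≤ Fintype.card F := Fintype.one_lt_card

theorem even_card [CharP F 2] : Even (Fintype.card F) := by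
  obtain ⟨n, -, hn⟩ := FiniteField.card F 2
  rw [hn]
  exact (even_two).pow_of_ne_zero n.pos.ne'

theorem natDegree_X_mul_Lz (z : ℕ) : (X * Lz F z).natDegree = S (Fintype.card F) z := by
  rw [natDegree_mul X_ne_zero (monic_Lz z).ne_zero, natDegree_X, natDegree_Lz, S,
    Finset.sum_range_succ']
  simp [add_comm]

/-- The basic construction of intervals without irreducible polynomials. -/
theorem hasGap [CharP F 2] (z m a d : ℕ) (hz : 1 ≤ z)
    (hcase : (Odd a ∧ m = 2 * z) ∨ (Even a ∧ m = 2 * z + 1)) (hd : S (Fintype.card F) z ≤ d)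
    (hκ : Kap a m d) : HasGap F (4 * d + a) m := by
  have hSz := le_S (Fintype.card F) z two_le_card
  have hm : m ≤ 2 * z + 1 := by rcases hcase with h | h <;> omega
  set h : F[X] := X ^ (d - S (Fintype.card F) z) * (X * Lz F z) with hh
  have hLm : (X * Lz F z).Monic := monic_X.mul (monic_Lz z)
  have hhm : h.Monic := (monic_X_pow _).mul hLm
  have hhd : h.natDegree = d := by
    rw [hh, (monic_X_pow _).natDegree_mul hLm, natDegree_X_pow, natDegree_X_mul_Lz]
    omega
  have hm1 : (X ^ a * h ^ 4).Monic := (monic_X_pow a).mul (hhm.pow 4)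
  have hd1 : (X ^ a * h ^ 4).natDegree = 4 * d + a := by
    rw [(monic_X_pow a).natDegree_mul (hhm.pow 4), natDegree_X_pow, hhm.natDegree_pow, hhd]
    ring
  have hlt : (X ^ m : F[X]).natDegree < (X ^ a * h ^ 4).natDegree := by
    rw [hd1, natDegree_X_pow]; omega
  refine ⟨by omega, X ^ a * h ^ 4 + X ^ m, hm1.add_of_left (degree_lt_degree hlt), ?_, ?_⟩
  · rw [natDegree_add_eq_left_of_natDegree_lt hlt, hd1]
  · intro g hg hirr
    have hirr' : Irreducible (X ^ a * h ^ 4 + X ^ m + g) := hirr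
    rw [add_assoc] at hirr'
    refine not_irreducible hz hcase h hhm hhd (dvd_mul_left _ _) hκ _ (monic_X_pow_add hg) ?_ hirr'
    rw [natDegree_add_eq_left_of_degree_lt (by rwa [degree_X_pow]), natDegree_X_pow]

end

end Pool.Agent.H62.FF
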