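import Pool.Agent.H62.FF.Blocks
import Pool.Agent.H62.FF.Defs

/-!
# Intervals of polynomials as finite sets
-/

set_option autoImplicit false
set_option linter.unusedSectionVars false

open Polynomial

namespace Pool.Agent.H62.FF

variable (F : Type*) [Field F] [Fintype F]

/-- The polynomials of degree less than `m`. -/
noncomputable def low (m : ℕ) : Finset F[X] :=
  (Finset.univ : Finset (Fin m → F)).map
    ⟨fun v => ((degreeLTEquiv F m).symm v : F[X]), fun _ _ h =>
      (degreeLTEquiv F m).symm.injective (Subtype.ext h)⟩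

variable {F}

theorem mem_low (m : ℕ) (g : F[X]) : g ∈ low F m ↔ g.degree < m := by
  rw [low, Finset.mem_map]
  constructor
  · rintro ⟨v, -, rfl⟩
    exact mem_degreeLT.mp ((degreeLTEquiv F m).symm v).2
  · intro h
    refine ⟨degreeLTEquiv F m ⟨g, mem_degreeLT.mpr h⟩, Finset.mem_univ _, ?_⟩
    simp

theorem card_low (m : ℕ) : (low F m).card = Fintype.card F ^ m := by
  rw [low, Finset.card_map, Finset.card_univ, Fintype.card_fun, Fintype.card_fin]

/-- The interval around `f`. -/
noncomputable def block (f : F[X]) (m : ℕ) : Finset F[X] :=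
  (low F m).map ⟨fun g => f + g, fun _ _ h => add_left_cancel h⟩

theorem card_block (f : F[X]) (m : ℕ) : (block f m).card = Fintype.card F ^ m := by
  rw [block, Finset.card_map, card_low]

theorem mem_block (f : F[X]) (m : ℕ) (x : F[X]) :
    x ∈ block f m ↔ ∃ g : F[X], g.degree < m ∧ f + g = x := by
  rw [block, Finset.mem_map]
  simp only [mem_low, Function.Embedding.coeFn_mk]

theorem block_monic (f : F[X]) (hf : f.Monic) {n m : ℕ} (hn : f.natDegree = n) (hm : m ≤ n)
    (x : F[X]) (hx : x ∈ block f m) : x.Monic ∧ x.natDegree = n := by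
  obtain ⟨g, hg, rfl⟩ := (mem_block f m x).mp hx
  have h1 : g.degree < f.degree := by
    rw [degree_eq_natDegree hf.ne_zero, hn]
    exact lt_of_lt_of_le hg (by exact_mod_cast hm)
  exact ⟨hf.add_of_left h1, by rw [natDegree_add_eq_left_of_degree_lt h1, hn]⟩

theorem top_monic (n : ℕ) (r : F[X]) (hr : r.degree < n) :
    (X ^ n + r).Monic ∧ (X ^ n + r).natDegree = n := by
  refine ⟨monic_X_pow_add hr, ?_⟩
  rw [natDegree_add_eq_left_of_degree_lt (by rwa [degree_X_pow]), natDegree_X_pow]

/-- Every monic polynomial of degree `n` is `X ^ n + r`, `deg r < n`. -/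
theorem exists_low (n : ℕ) (f : F[X]) (hf : f.Monic) (hn : f.natDegree = n) :
    ∃ r ∈ low F n, X ^ n + r = f := by
  refine ⟨f - X ^ n, ?_, by ring⟩
  rw [mem_low]
  have h1 : f.degree = (X ^ n : F[X]).degree := by
    rw [degree_eq_natDegree hf.ne_zero, hn, degree_X_pow]
  have h2 := degree_sub_lt h1 hf.ne_zero (by rw [hf.leadingCoeff, (monic_X_pow n).leadingCoeff])
  rwa [degree_eq_natDegree hf.ne_zero, hn] at h2

theorem degree_X_pow_mul_lt {n m : ℕ} (hm : m ≤ n) (r : F[X]) (hr : r ∈ low F (n - m)) :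
    (X ^ m * r : F[X]).degree < (n : WithBot ℕ) := by
  rw [mem_low] at hr
  by_cases h0 : r = 0
  · rw [h0, mul_zero, degree_zero]
    exact WithBot.bot_lt_coe n
  · rw [degree_eq_natDegree h0] at hr
    have h1 : r.natDegree < n - m := by exact_mod_cast hr
    rw [degree_eq_natDegree (mul_ne_zero (pow_ne_zero _ X_ne_zero) h0),
      natDegree_mul (pow_ne_zero _ X_ne_zero) h0, natDegree_X_pow]
    exact_mod_cast (by omega : m + r.natDegree < n)

theorem block_disjoint (n m : ℕ) (r s : F[X]) (hrs : r ≠ s) :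
    Disjoint (block (X ^ n + X ^ m * r) m) (block (X ^ n + X ^ m * s) m) := by
  rw [Finset.disjoint_left]
  intro x hx hy
  obtain ⟨g, hg, h1⟩ := (mem_block _ m x).mp hx
  obtain ⟨g', hg', h2⟩ := (mem_block _ m x).mp hy
  have h3 : X ^ m * (r - s) = g' - g := by
    have := h1.trans h2.symm
    linear_combination this
  have h4 : (g' - g).degree < m := lt_of_le_of_lt (degree_sub_le _ _) (max_lt hg' hg)
  have h5 : r - s ≠ 0 := sub_ne_zero.mpr hrs
  rw [← h3, degree_eq_natDegree (mul_ne_zero (pow_ne_zero _ X_ne_zero) h5),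
    natDegree_mul (pow_ne_zero _ X_ne_zero) h5, natDegree_X_pow] at h4
  have h6 : m + (r - s).natDegree < m := by exact_mod_cast h4
  omega

end Pool.Agent.H62.FF
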