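import Mathlib

/-!
# The product of the polynomials `X ^ (q ^ j) - X`
-/

set_option autoImplicit false
set_option linter.unusedSectionVars false

open Polynomial

namespace Pool.Agent.H62.FF

variable (F : Type*) [Field F] [Fintype F]

/-- The polynomial `∏_{j = 1}^{z} (X ^ (q ^ j) - X)`, `q` the number of elements of `F`. -/
noncomputable def Lz (z : ℕ) : F[X] :=
  ∏ j ∈ Finset.range z, (X ^ (Fintype.card F ^ (j + 1)) - X)

variable {F}

theorem Lz_zero : Lz F 0 = 1 := by simp [Lz]

theorem Lz_succ (z : ℕ) : Lz F (z + 1) = Lz F z * (X ^ (Fintype.card F ^ (z + 1)) - X) := by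
  rw [Lz, Lz, Finset.prod_range_succ]

theorem Lz_dvd_of_le {a b : ℕ} (h : a ≤ b) : Lz F a ∣ Lz F b := by
  obtain ⟨c, rfl⟩ := Nat.exists_eq_add_of_le h
  induction c with
  | zero => simp
  | succ c ih =>
    rw [← add_assoc, Lz_succ]
    exact (ih (by omega)).trans (dvd_mul_right _ _)

theorem Lz_mul_dvd {a b j : ℕ} (ha : a < j) (hb : j ≤ b) :
    Lz F a * (X ^ (Fintype.card F ^ j) - X) ∣ Lz F b := by
  obtain ⟨j, rfl⟩ : ∃ j', j = j' + 1 := ⟨j - 1, by omega⟩
  refine dvd_trans ?_ (Lz_dvd_of_le hb)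
  rw [Lz_succ]
  exact mul_dvd_mul_right (Lz_dvd_of_le (by omega)) _

theorem monic_X_pow_sub {N : ℕ} (hN : 2 ≤ N) : (X ^ N - X : F[X]).Monic := by
  refine (monic_X_pow N).sub_of_left ?_
  rw [degree_X_pow, degree_X]
  exact_mod_cast hN

theorem two_le_card_pow (j : ℕ) : 2 ≤ Fintype.card F ^ (j + 1) := by
  have h : 2 ≤ Fintype.card F := Fintype.one_lt_card
  calc 2 ≤ Fintype.card F := h
    _ = Fintype.card F ^ 1 := (pow_one _).symm
    _ ≤ Fintype.card F ^ (j + 1) := Nat.pow_le_pow_right (by omega) (by omega)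

theorem monic_Lz (z : ℕ) : (Lz F z).Monic := by
  refine monic_prod_of_monic _ _ (fun j _ => monic_X_pow_sub (two_le_card_pow j))

theorem natDegree_X_pow_sub {N : ℕ} (hN : 2 ≤ N) : (X ^ N - X : F[X]).natDegree = N := by
  rw [natDegree_sub_eq_left_of_natDegree_lt, natDegree_X_pow]
  rw [natDegree_X_pow, natDegree_X]
  omega

theorem natDegree_Lz (z : ℕ) :
    (Lz F z).natDegree = ∑ j ∈ Finset.range z, Fintype.card F ^ (j + 1) := by
  rw [Lz, natDegree_prod_of_monic _ _ (fun j _ => monic_X_pow_sub (two_le_card_pow j))]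
  exact Finset.sum_congr rfl (fun j _ => natDegree_X_pow_sub (two_le_card_pow j))

/-- Every nonzero polynomial of degree at most `z` divides `Lz F z`. -/
theorem dvd_Lz (z : ℕ) (u : F[X]) (hu : u ≠ 0) (hz : u.natDegree ≤ z) : u ∣ Lz F z := by
  induction z using Nat.strong_induction_on generalizing u with
  | _ z ih =>
    by_cases hunit : IsUnit u
    · exact hunit.dvd
    · obtain ⟨P, hP, v, rfl⟩ := WfDvdMonoid.exists_irreducible_factor hunit hu
      have hP0 : P ≠ 0 := hP.ne_zero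
      have hv0 : v ≠ 0 := right_ne_zero_of_mul hu
      have ha : 0 < P.natDegree := hP.natDegree_pos
      rw [natDegree_mul hP0 hv0] at hz
      set a := P.natDegree with hadef
      have hv : v ∣ Lz F (z - a) := ih (z - a) (by omega) v hv0 (by omega)
      -- a multiple of `a` in `(z - a, z]`
      obtain ⟨j, hj1, hj2, hj3⟩ : ∃ j, a ∣ j ∧ z - a < j ∧ j ≤ z := by
        refine ⟨a * (z / a), dvd_mul_right _ _, ?_, Nat.mul_div_le z a⟩
        have := Nat.lt_mul_div_succ z ha
        have h2 : a * (z / a + 1) = a * (z / a) + a := by ring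
        omega
      have hPj : P ∣ X ^ (Fintype.card F ^ j) - X := by
        have h1 := hP.natDegree_dvd_iff_dvd_X_pow_card_pow_sub_X (n := j)
        rw [Nat.card_eq_fintype_card] at h1
        exact h1.mp hj1
      rw [mul_comm P v]
      exact (mul_dvd_mul hv hPj).trans (Lz_mul_dvd hj2 hj3)

theorem X_dvd_Lz {z : ℕ} (hz : 1 ≤ z) : (X : F[X]) ∣ Lz F z :=
  dvd_Lz z X X_ne_zero (by rw [natDegree_X]; exact hz)

end Pool.Agent.H62.FF
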