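import Pool.Agent.H62.FF.Ctx

/-!
# The ring of Witt vectors modulo `8`
-/

set_option autoImplicit false

open Polynomial

namespace Pool.Agent.H62.FF

universe u

local instance fact_prime_two : Fact (Nat.Prime 2) := ⟨Nat.prime_two⟩

set_option linter.unusedSectionVars false

section
variable (k : Type u) [Field k] [CharP k 2] [PerfectRing k 2]

/-- Witt vectors modulo `8`. -/
abbrev W8 : Type u := WittVector 2 k ⧸ (Ideal.span {(8 : WittVector 2 k)})

theorem constantCoeff_two : WittVector.constantCoeff (2 : WittVector 2 k) = 0 := by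
  rw [map_ofNat]
  exact CharTwo.two_eq_zero

theorem two_dvd (w : WittVector 2 k) (h : WittVector.constantCoeff w = 0) : ∃ y, w = 2 * y := by
  have h1 : w ∈ RingHom.ker (WittVector.constantCoeff : WittVector 2 k →+* k) := h
  rw [WittVector.ker_constantCoeff] at h1
  obtain ⟨y, hy⟩ := Ideal.mem_span_singleton'.mp h1
  refine ⟨y, ?_⟩
  rw [← hy, mul_comm]
  norm_num

/-- The residue map of the ring of Witt vectors modulo `8`. -/
noncomputable def w8π : W8 k →+* k :=
  Ideal.Quotient.lift _ (WittVector.constantCoeff) (by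
    intro a ha
    obtain ⟨b, rfl⟩ := Ideal.mem_span_singleton'.mp ha
    have h8 : (8 : WittVector 2 k) = 2 * 4 := by norm_num
    rw [h8, map_mul, map_mul, constantCoeff_two, zero_mul, mul_zero])

theorem w8π_mk (w : WittVector 2 k) :
    w8π k (Ideal.Quotient.mk _ w) = WittVector.constantCoeff w := rfl

/-- The data for Witt vectors modulo `8`. -/
noncomputable def w8 : Dat (W8 k) k where
  π := w8π k
  surj := by
    intro x
    refine ⟨Ideal.Quotient.mk _ (WittVector.teichmuller 2 x), ?_⟩
    rw [w8π_mk]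
    exact WittVector.teichmuller_coeff_zero 2 x
  h8 := by
    have : Ideal.Quotient.mk (Ideal.span {(8 : WittVector 2 k)}) 8 = 0 :=
      Ideal.Quotient.eq_zero_iff_mem.mpr (Ideal.mem_span_singleton_self _)
    rwa [map_ofNat] at this
  ker := by
    intro x hx
    obtain ⟨w, rfl⟩ := Ideal.Quotient.mk_surjective x
    rw [w8π_mk] at hx
    obtain ⟨y, rfl⟩ := two_dvd k w hx
    exact ⟨Ideal.Quotient.mk _ y, by rw [map_mul, map_ofNat]⟩
  h4 := by
    intro x hx
    obtain ⟨w, rfl⟩ := Ideal.Quotient.mk_surjective x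
    have h1 : Ideal.Quotient.mk (Ideal.span {(8 : WittVector 2 k)}) (4 * w) = 0 := by
      rw [map_mul, map_ofNat]; exact hx
    obtain ⟨b, hb⟩ := Ideal.mem_span_singleton'.mp (Ideal.Quotient.eq_zero_iff_mem.mp h1)
    have h2 : (2 : WittVector 2 k) ≠ 0 := by
      have := WittVector.p_nonzero 2 k
      exact_mod_cast this
    have h4 : (4 : WittVector 2 k) ≠ 0 := by
      have : (4 : WittVector 2 k) = 2 * 2 := by norm_num
      rw [this]
      exact mul_ne_zero h2 h2
    have h3 : w = 2 * b := by
      refine mul_left_cancel₀ h4 ?_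
      rw [← hb]; ring
    rw [w8π_mk, h3, map_mul, constantCoeff_two, zero_mul]

/-- The endomorphism of `W8 k` induced by an endomorphism of `k`. -/
noncomputable def w8σ (f : k →+* k) : W8 k →+* W8 k :=
  Ideal.quotientMap _ (WittVector.map f) (by
    rw [Ideal.span_le, Set.singleton_subset_iff]
    have h : (WittVector.map f : WittVector 2 k →+* WittVector 2 k) 8 = 8 := map_ofNat _ 8
    show (WittVector.map f : WittVector 2 k →+* WittVector 2 k) 8 ∈
      Ideal.span {(8 : WittVector 2 k)}
    rw [h]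
    exact Ideal.mem_span_singleton_self _)

theorem w8σ_mk (f : k →+* k) (w : WittVector 2 k) :
    w8σ k f (Ideal.Quotient.mk _ w) = Ideal.Quotient.mk _ (WittVector.map f w) :=
  Ideal.quotientMap_mk

theorem w8_map (f : k →+* k) (x : W8 k) : (w8 k).π (w8σ k f x) = f ((w8 k).π x) := by
  obtain ⟨w, rfl⟩ := Ideal.Quotient.mk_surjective x
  rw [w8σ_mk]
  rfl

/-- The multiplicative lift. -/
noncomputable def w8τ (a : k) : W8 k := Ideal.Quotient.mk _ (WittVector.teichmuller 2 a)

theorem w8_τ (a : k) : (w8 k).π (w8τ k a) = a := WittVector.teichmuller_coeff_zero 2 a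

theorem w8σ_τ (f : k →+* k) (a : k) (h : f a = a) : w8σ k f (w8τ k a) = w8τ k a := by
  rw [w8τ, w8σ_mk, WittVector.map_teichmuller, h]

theorem w8τ_zero : w8τ k 0 = 0 := by
  rw [w8τ, WittVector.teichmuller_zero, map_zero]

theorem w8τ_one : w8τ k 1 = 1 := by
  rw [w8τ, map_one, map_one]

end

end Pool.Agent.H62.FF
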