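import Pool.Agent.H62.FF.Ctx

/-!
# Roots of irreducible polynomials over a finite field and their lifts
-/

set_option autoImplicit false

open Polynomial

namespace Pool.Agent.H62.FF

section lift
variable {T k : Type*} [CommRing T] [Field k] (D : Dat T k)

include D in
theorem exists_root_lift (P : T[X]) (a : k) (h0 : (P.map D.π).eval a = 0)
    (h1 : (derivative (P.map D.π)).eval a ≠ 0) :
    ∃ r, (D.π r = a ∧ P.eval r = 0) ∧ ∀ r', D.π r' = a → P.eval r' = 0 → r' = r := by
  obtain ⟨x, hx⟩ := D.surj a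
  have hn : IsNilpotent (aeval x P) := by
    refine D.nilp _ ?_
    rw [coe_aeval_eq_eval, ← eval_map_apply, hx, h0]
  have hu : IsUnit (aeval x (derivative P)) := by
    refine D.isUnit _ ?_
    rw [coe_aeval_eq_eval, ← eval_map_apply, hx, ← derivative_map]
    exact h1
  obtain ⟨r, ⟨hr1, hr2⟩, hr3⟩ := existsUnique_nilpotent_sub_and_aeval_eq_zero hn hu
  refine ⟨r, ⟨?_, by rwa [coe_aeval_eq_eval] at hr2⟩, ?_⟩
  · have := D.π_eq_zero_of_nilp _ hr1
    rw [map_sub, hx, sub_eq_zero] at this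
    exact this.symm
  · intro r' h2 h3
    refine hr3 r' ⟨D.nilp _ ?_, by rwa [coe_aeval_eq_eval]⟩
    rw [map_sub, hx, h2, sub_self]

include D in
/-- Lifting the roots of a polynomial with simple roots which are permuted cyclically by the
`q`-Frobenius. -/
theorem lift_roots (q : ℕ) (σ : T →+* T) (hσ : ∀ x, D.π (σ x) = D.π x ^ q)
    {n : ℕ} (P : T[X]) (hPm : P.Monic) (hPn : P.natDegree = n) (hPσ : P.map σ = P)
    (α : Fin n → k) (hα : Function.Injective α) (hαr : ∀ i, α (finRotate n i) = α i ^ q)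
    (hP : P.map D.π = ∏ i, (X - C (α i))) :
    ∃ Φ : Fin n → T, (∀ i, D.π (Φ i) = α i) ∧ P = ∏ i, (X - C (Φ i)) ∧
      ∀ i, σ (Φ i) = Φ (finRotate n i) := by
  have key : ∀ i, ∃ r, (D.π r = α i ∧ P.eval r = 0) ∧
      ∀ r', D.π r' = α i → P.eval r' = 0 → r' = r := by
    intro i
    refine exists_root_lift D P (α i) ?_ ?_
    · rw [hP, eval_prod]
      exact Finset.prod_eq_zero (Finset.mem_univ i) (by simp)
    · rw [hP]
      exact eval_derivative_ne_zero α hα i
  choose Φ hΦ hΦ' using key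
  refine ⟨Φ, fun i => (hΦ i).1, ?_, ?_⟩
  · refine eq_prod_of_roots Φ ?_ P hPm hPn (fun i => (hΦ i).2)
    intro i j hij
    refine D.isUnit _ ?_
    rw [map_sub, (hΦ i).1, (hΦ j).1, sub_ne_zero]
    exact fun h => hij (hα h)
  · intro i
    refine hΦ' _ _ ?_ ?_
    · rw [hσ, (hΦ i).1, hαr]
    · rw [← hPσ, eval_map_apply, (hΦ i).2, map_zero]

end lift

section liftPoly
variable {F T : Type*} [Field F] [CommRing T] (τ : F → T)

/-- Coefficientwise lift of a polynomial. -/
noncomputable def liftPoly (p : F[X]) : T[X] :=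
  ∑ i ∈ Finset.range (p.natDegree + 1), C (τ (p.coeff i)) * X ^ i

theorem coeff_liftPoly (h0 : τ 0 = 0) (p : F[X]) (i : ℕ) :
    (liftPoly τ p).coeff i = τ (p.coeff i) := by
  rw [liftPoly, finsetSum_coeff]
  simp only [coeff_C_mul_X_pow]
  rw [Finset.sum_ite_eq]
  split_ifs with h
  · rfl
  · rw [coeff_eq_zero_of_natDegree_lt (by simpa using h), h0]

theorem natDegree_liftPoly_le (h0 : τ 0 = 0) (p : F[X]) :
    (liftPoly τ p).natDegree ≤ p.natDegree := by
  rw [natDegree_le_iff_coeff_eq_zero]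
  intro i hi
  rw [coeff_liftPoly τ h0, coeff_eq_zero_of_natDegree_lt hi, h0]

theorem monic_liftPoly (h0 : τ 0 = 0) (h1 : τ 1 = 1) (p : F[X]) (hp : p.Monic) :
    (liftPoly τ p).Monic :=
  monic_of_natDegree_le_of_coeff_eq_one _ (natDegree_liftPoly_le τ h0 p) (by
    rw [coeff_liftPoly τ h0, hp.coeff_natDegree, h1])

theorem natDegree_liftPoly [Nontrivial T] (h0 : τ 0 = 0) (h1 : τ 1 = 1) (p : F[X]) (hp : p.Monic) :
    (liftPoly τ p).natDegree = p.natDegree :=
  le_antisymm (natDegree_liftPoly_le τ h0 p) (le_natDegree_of_ne_zero (by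
    rw [coeff_liftPoly τ h0, hp.coeff_natDegree, h1]; exact one_ne_zero))

theorem map_liftPoly {k : Type*} [Field k] (π : T →+* k) (ι : F →+* k) (h0 : τ 0 = 0)
    (hτ : ∀ a, π (τ a) = ι a) (p : F[X]) : (liftPoly τ p).map π = p.map ι := by
  ext i
  rw [coeff_map, coeff_map, coeff_liftPoly τ h0, hτ]

theorem map_liftPoly_self (σ : T →+* T) (h0 : τ 0 = 0)
    (hτ : ∀ a, σ (τ a) = τ a) (p : F[X]) : (liftPoly τ p).map σ = liftPoly τ p := by
  ext i
  rw [coeff_map, coeff_liftPoly τ h0, hτ]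

end liftPoly

section field
variable {F k : Type*} [Field F] [Fintype F] [Field k] [Algebra F k]

theorem aeval_pow_card (f : F[X]) (θ : k) (h : aeval θ f = 0) (i : ℕ) :
    aeval (θ ^ Fintype.card F ^ i) f = 0 := by
  induction i with
  | zero => simpa using h
  | succ i ih =>
    have h1 := aeval_algHom_apply (FiniteField.frobeniusAlgHom F k) (θ ^ Fintype.card F ^ i) f
    rw [ih, map_zero] at h1
    rw [← h1, pow_succ, pow_mul]
    rfl

theorem pow_card_inj (x y : k) (h : x ^ Fintype.card F = y ^ Fintype.card F) : x = y :=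
  (FiniteField.frobeniusAlgHom F k).toRingHom.injective h

theorem pow_card_pow_inj (i : ℕ) (x y : k) (h : x ^ Fintype.card F ^ i = y ^ Fintype.card F ^ i) :
    x = y := by
  induction i with
  | zero => simpa using h
  | succ i ih =>
    refine ih (pow_card_inj (F := F) _ _ ?_)
    rwa [← pow_mul, ← pow_mul, ← pow_succ]

theorem val_finRotate {n : ℕ} (i : Fin n) :
    ((finRotate n i : Fin n) : ℕ) = if (i : ℕ) + 1 = n then 0 else (i : ℕ) + 1 := by
  obtain ⟨n, rfl⟩ : ∃ n', n = n' + 1 := ⟨n - 1, by have := i.2; omega⟩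
  rw [finRotate_apply]
  split_ifs with h
  · have : i = Fin.last n := Fin.ext (by simpa using h)
    rw [this]
    simp
  · have h2 : i < Fin.last n := by
      rw [Fin.lt_def, Fin.val_last]
      have := i.2
      omega
    exact Fin.val_add_one_of_lt h2

/-- The roots of an irreducible polynomial over a finite field. -/
theorem exists_roots [IsAlgClosed k] (f : F[X]) (hf : Irreducible f) (hfm : f.Monic) {n : ℕ}
    (hn : f.natDegree = n) :
    ∃ α : Fin n → k, Function.Injective α ∧ (∀ i, α (finRotate n i) = α i ^ Fintype.card F) ∧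
      f.map (algebraMap F k) = ∏ i, (X - C (α i)) := by
  classical
  have hdeg : (f.map (algebraMap F k)).degree ≠ 0 := by
    rw [degree_map]
    exact (degree_pos_of_irreducible hf).ne'
  obtain ⟨θ, hθ⟩ := IsAlgClosed.exists_root (f.map (algebraMap F k)) hdeg
  have hθ' : aeval θ f = 0 := by
    rw [IsRoot.def, eval_map_algebraMap] at hθ
    exact hθ
  have hdvd : ∀ p : F[X], aeval θ p = 0 → f ∣ p := by
    intro p hp
    have h1 : minpoly F θ = f := (minpoly.eq_of_irreducible_of_monic hf hθ' hfm).symm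
    rw [← h1]
    exact minpoly.dvd F θ hp
  have hcyc : ∀ i : ℕ, θ ^ Fintype.card F ^ i = θ → n ∣ i := by
    intro i hi
    rw [← hn, hf.natDegree_dvd_iff_dvd_X_pow_card_pow_sub_X]
    refine hdvd _ ?_
    rw [Nat.card_eq_fintype_card]
    simp [hi]
  have hper : θ ^ Fintype.card F ^ n = θ := by
    have h1 : f ∣ X ^ (Nat.card F) ^ n - X :=
      hf.natDegree_dvd_iff_dvd_X_pow_card_pow_sub_X.mp (by rw [hn])
    obtain ⟨g, hg⟩ := h1
    have h2 := congrArg (aeval θ) hg
    rw [map_mul, hθ', zero_mul, Nat.card_eq_fintype_card] at h2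
    simpa [sub_eq_zero] using h2
  have hinj : ∀ i j : ℕ, i < n → j < n → θ ^ Fintype.card F ^ i = θ ^ Fintype.card F ^ j →
      i ≤ j → i = j := by
    intro i j hi hj h hij
    obtain ⟨l, rfl⟩ := Nat.exists_eq_add_of_le hij
    have h1 : θ ^ Fintype.card F ^ l = θ := by
      refine pow_card_pow_inj (F := F) i _ _ ?_
      rw [← pow_mul, ← pow_add, add_comm l i]
      exact h.symm
    have h2 := hcyc l h1
    have h3 : l = 0 := Nat.eq_zero_of_dvd_of_lt h2 (by omega)
    omega
  refine ⟨fun i => θ ^ Fintype.card F ^ (i : ℕ), ?_, ?_, ?_⟩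
  · intro i j h
    refine Fin.ext ?_
    rcases le_total (i : ℕ) j with h1 | h1
    · exact hinj i j i.2 j.2 h h1
    · exact (hinj j i j.2 i.2 h.symm h1).symm
  · intro i
    show θ ^ Fintype.card F ^ ((finRotate n i : Fin n) : ℕ) =
      (θ ^ Fintype.card F ^ (i : ℕ)) ^ Fintype.card F
    rw [val_finRotate, ← pow_mul, ← pow_succ]
    split_ifs with h
    · rw [h, hper, pow_zero, pow_one]
    · rfl
  · refine eq_prod_of_roots _ ?_ _ (hfm.map _) (by rw [hfm.natDegree_map, hn]) ?_
    · intro i j hij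
      refine IsUnit.mk0 _ ?_
      rw [sub_ne_zero]
      intro h
      refine hij (Fin.ext ?_)
      rcases le_total (i : ℕ) j with h1 | h1
      · exact hinj i j i.2 j.2 h h1
      · exact (hinj j i j.2 i.2 h.symm h1).symm
    · intro i
      rw [eval_map_algebraMap]
      exact aeval_pow_card f θ hθ' i

end field

end Pool.Agent.H62.FF
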