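import Pool.Agent.H62.FF.Parity
import Pool.Agent.H62.FF.Ring
import Pool.Agent.H62.FF.Roots
import Pool.Agent.H62.FF.Lz

/-!
# The polynomials `X ^ a h ^ 4 + G` are reducible
-/

set_option autoImplicit false
set_option linter.unusedSectionVars false

open Polynomial

namespace Pool.Agent.H62.FF

universe u

variable {F : Type u} [Field F] [Fintype F] [CharP F 2]

theorem exists_sqrt (c : F) : ∃ s : F, s ^ 2 = c := by
  have : Fact (Nat.Prime 2) := ⟨Nat.prime_two⟩
  have : ExpChar F 2 := inferInstance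
  obtain ⟨s, hs⟩ := (bijective_frobenius F 2).2 c
  exact ⟨s, hs⟩

/-- In characteristic two over a perfect field every polynomial is `A ^ 2 + X B ^ 2`. -/
theorem sq_decomp (G : F[X]) : ∃ A B : F[X], G = A ^ 2 + X * B ^ 2 := by
  induction hn : G.natDegree using Nat.strong_induction_on generalizing G with
  | _ n ih =>
    have h2 : (2 : F[X]) = 0 := CharTwo.two_eq_zero
    obtain ⟨s, hs⟩ := exists_sqrt (G.coeff 0)
    have hG : divX G * X + C (G.coeff 0) = G := divX_mul_X_add G
    rcases Nat.eq_zero_or_pos n with h0 | hpos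
    · refine ⟨C s, 0, ?_⟩
      rw [eq_C_of_natDegree_eq_zero (hn.trans h0), ← C_pow, hs]
      simp
    · obtain ⟨A, B, hAB⟩ := ih (divX G).natDegree (by
        rw [natDegree_divX_eq_natDegree_tsub_one]; omega) (divX G) rfl
      refine ⟨C s + X * B, A, ?_⟩
      rw [hAB, ← hs, C_pow] at hG
      linear_combination (-1 : F[X]) * hG - (C s * X * B) * h2

theorem natDegree_sq (A : F[X]) : (A ^ 2).natDegree = 2 * A.natDegree := natDegree_pow A 2

theorem natDegree_decomp (A B : F[X]) (z m : ℕ) (hm : m ≤ 2 * z + 1)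
    (h : (A ^ 2 + X * B ^ 2).natDegree = m) :
    A.natDegree ≤ z ∧ B.natDegree ≤ z := by
  by_cases hB : B = 0
  · rw [hB] at h ⊢
    rw [zero_pow (by norm_num), mul_zero, add_zero, natDegree_sq] at h
    rw [natDegree_zero]
    omega
  · have h1 : (X * B ^ 2).natDegree = 1 + 2 * B.natDegree := by
      rw [natDegree_mul X_ne_zero (pow_ne_zero 2 hB), natDegree_X, natDegree_sq]
    rcases lt_or_gt_of_ne (by rw [natDegree_sq, h1]; omega :
      (A ^ 2).natDegree ≠ (X * B ^ 2).natDegree) with h2 | h2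
    · rw [natDegree_add_eq_right_of_natDegree_lt h2] at h
      rw [natDegree_sq] at h2
      omega
    · rw [natDegree_add_eq_left_of_natDegree_lt h2] at h
      rw [natDegree_sq] at h h2
      omega

theorem derivative_decomp (A B : F[X]) : derivative (A ^ 2 + X * B ^ 2) = B ^ 2 := by
  have h2 : (2 : F[X]) = 0 := CharTwo.two_eq_zero
  have hC : (C ((2 : ℕ) : F) : F[X]) = 0 := by
    have : ((2 : ℕ) : F) = 0 := by exact_mod_cast CharTwo.two_eq_zero (R := F)
    rw [this, C_0]
  rw [derivative_add, derivative_mul, derivative_pow, derivative_pow, derivative_X, hC]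
  ring

theorem natDegree_eq_of_dvd {f A : F[X]} (hf : Irreducible f) (hA : ¬ IsUnit A) (h : A ∣ f) :
    A.natDegree = f.natDegree := by
  obtain ⟨C', hC⟩ := h
  have h1 : IsUnit C' := (hf.isUnit_or_isUnit hC).resolve_left hA
  have h2 : A ≠ 0 := by
    rintro rfl
    rw [zero_mul] at hC
    exact hf.ne_zero hC
  rw [hC, natDegree_mul h2 h1.ne_zero, natDegree_eq_zero_of_isUnit h1, add_zero]

/-- The case of an irreducible `G`. -/
theorem not_both {m a d b : ℕ} (hd : 1 ≤ d) (hm : 1 ≤ m) (hmn : m < 4 * d + a)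
    (hodd : Odd (a + m)) (hb : (Odd a ∧ b = 0) ∨ (Even a ∧ b = 1))
    (h G u y : F[X]) (hh : h.Monic) (hhd : h.natDegree = d) (hG : G.Monic) (hGm : G.natDegree = m)
    (hfm : (X ^ a * h ^ 4 + G).Monic) (hfn : (X ^ a * h ^ 4 + G).natDegree = 4 * d + a)
    (hu : h = X * u * y) (hQ : X * derivative G - C (a : F) * G = X ^ b * u ^ 2)
    (hG0 : G.coeff 0 ≠ 0)
    (hκ : ∃ t : ℤ, (-1) ^ ((4 * d + a) * (4 * d + a - 1) / 2 + (4 * d + a) + m * (m - 1) / 2) *
      (1 + 4 * (d : ℤ)) * ((m : ℤ) - a) = 1 + 8 * t)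
    (hGi : Irreducible G) (hfi : Irreducible (X ^ a * h ^ 4 + G)) : False := by
  classical
  let k := AlgebraicClosure F
  have : Fact (Nat.Prime 2) := ⟨Nat.prime_two⟩
  have hk2 : CharP k 2 := charP_of_injective_algebraMap (algebraMap F k).injective 2
  have hex : ExpChar k 2 := inferInstance
  have hperf : PerfectRing k 2 := inferInstance
  let ι := algebraMap F k
  let D := w8 k
  have := D.nontrivial
  let σ := w8σ k (FiniteField.frobeniusAlgHom F k).toRingHom
  let τ : F → W8 k := fun c => w8τ k (ι c)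
  have hσ : ∀ x, D.π (σ x) = D.π x ^ Fintype.card F := fun x =>
    w8_map k (FiniteField.frobeniusAlgHom F k).toRingHom x
  have hτ : ∀ c, D.π (τ c) = ι c := fun c => w8_τ k (ι c)
  have hστ : ∀ c, σ (τ c) = τ c := by
    intro c
    refine w8σ_τ k _ _ ?_
    show (FiniteField.frobeniusAlgHom F k) (algebraMap F k c) = algebraMap F k c
    exact AlgHom.commutes _ c
  have hτ0 : τ 0 = 0 := by
    show w8τ k (ι 0) = 0
    rw [map_zero, w8τ_zero]
  have hτ1 : τ 1 = 1 := by
    show w8τ k (ι 1) = 1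
    rw [map_one, w8τ_one]
  obtain ⟨α, hα, hαr, hαf⟩ := exists_roots (k := k) _ hfi hfm hfn
  obtain ⟨β, hβ, hβr, hβG⟩ := exists_roots (k := k) G hGi hG hGm
  set H := liftPoly τ h with hH
  set G' := liftPoly τ G with hG'
  have hHm : H.Monic := monic_liftPoly τ hτ0 hτ1 h hh
  have hHd : H.natDegree = d := by rw [hH, natDegree_liftPoly τ hτ0 hτ1 h hh, hhd]
  have hG'm : G'.Monic := monic_liftPoly τ hτ0 hτ1 G hG
  have hG'd : G'.natDegree = m := by rw [hG', natDegree_liftPoly τ hτ0 hτ1 G hG, hGm]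
  have hHπ : H.map D.π = h.map ι := map_liftPoly τ D.π ι hτ0 hτ h
  have hG'π : G'.map D.π = G.map ι := map_liftPoly τ D.π ι hτ0 hτ G
  have hHσ : H.map σ = H := map_liftPoly_self τ σ hτ0 hστ h
  have hG'σ : G'.map σ = G' := map_liftPoly_self τ σ hτ0 hστ G
  have hm1 : (X ^ a * H ^ 4).Monic := (monic_X_pow a).mul (hHm.pow 4)
  have hd1 : (X ^ a * H ^ 4).natDegree = 4 * d + a := by
    rw [(monic_X_pow a).natDegree_mul (hHm.pow 4), natDegree_X_pow, hHm.natDegree_pow, hHd]
    ring
  have hlt : G'.natDegree < (X ^ a * H ^ 4).natDegree := by rw [hd1, hG'd]; exact hmn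
  have hPm : (X ^ a * H ^ 4 + G').Monic := by
    refine hm1.add_of_left ?_
    exact degree_lt_degree hlt
  have hPd : (X ^ a * H ^ 4 + G').natDegree = 4 * d + a := by
    rw [natDegree_add_eq_left_of_natDegree_lt hlt, hd1]
  obtain ⟨Φ, hΦ1, hΦ2, hΦ3⟩ := lift_roots D (Fintype.card F) σ hσ (X ^ a * H ^ 4 + G') hPm hPd
    (by rw [Polynomial.map_add, Polynomial.map_mul, Polynomial.map_pow, Polynomial.map_pow, map_X,
      hHσ, hG'σ]) α hα hαr (by
      rw [← hαf]
      rw [Polynomial.map_add, Polynomial.map_mul, Polynomial.map_pow, Polynomial.map_pow, map_X,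
        hHπ, hG'π, Polynomial.map_add, Polynomial.map_mul, Polynomial.map_pow, Polynomial.map_pow,
        map_X])
  obtain ⟨Γ, hΓ1, hΓ2, hΓ3⟩ := lift_roots D (Fintype.card F) σ hσ G' hG'm hG'd hG'σ β hβ hβr
    (by rw [hG'π, hβG])
  have hβ0 : ∀ j, β j ≠ 0 := by
    intro j hj
    have h1 : (G.map ι).eval (β j) = 0 := by
      rw [hβG, eval_prod]
      exact Finset.prod_eq_zero (Finset.mem_univ j) (by simp)
    rw [hj, ← coeff_zero_eq_eval_zero, coeff_map] at h1
    exact hG0 ((map_eq_zero ι).mp h1)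
  refine no_both D (Fintype.card F) Fintype.card_pos σ hσ (n := 4 * d + a) rfl hd hm hmn.le hodd hb
    Φ Γ ?_ ?_ hΦ3 hΓ3 H hHm hHd ?_ ?_ (u.map ι) (y.map ι) ?_ ?_ hκ
  · intro i j hij
    simp only [hΦ1] at hij
    exact hα hij
  · intro i j hij
    simp only [hΓ1] at hij
    exact hβ hij
  · rw [← hΦ2, ← hΓ2]
  · intro j
    rw [hΓ1]
    exact hβ0 j
  · rw [hHπ, hu, Polynomial.map_mul, Polynomial.map_mul, map_X]
  · rw [← hΓ2]
    have h1 := congrArg (Polynomial.map ι) hQ
    rw [Polynomial.map_mul, Polynomial.map_pow, Polynomial.map_pow, map_X] at h1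
    rw [← h1, Polynomial.map_sub, Polynomial.map_sub, Polynomial.map_mul, Polynomial.map_mul,
      Polynomial.map_mul, Polynomial.map_mul, map_X, map_X, map_C, map_C,
      ← derivative_map, ← derivative_map, hG'π]
    simp

/-- **Main theorem**: `X ^ a h ^ 4 + G` is reducible for every monic `G` of degree `m`. -/
theorem not_irreducible {z m a d : ℕ} (hz : 1 ≤ z)
    (hcase : (Odd a ∧ m = 2 * z) ∨ (Even a ∧ m = 2 * z + 1))
    (h : F[X]) (hh : h.Monic) (hhd : h.natDegree = d) (hL : X * Lz F z ∣ h)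
    (hκ : ∃ t : ℤ, (-1) ^ ((4 * d + a) * (4 * d + a - 1) / 2 + (4 * d + a) + m * (m - 1) / 2) *
      (1 + 4 * (d : ℤ)) * ((m : ℤ) - a) = 1 + 8 * t)
    (G : F[X]) (hG : G.Monic) (hGm : G.natDegree = m) : ¬ Irreducible (X ^ a * h ^ 4 + G) := by
  intro hf
  have hdz : z + 1 ≤ d := by
    have h1 : (X * X ^ z : F[X]) ∣ h :=
      (mul_dvd_mul_left X (dvd_Lz z (X ^ z) (pow_ne_zero _ X_ne_zero)
        (by rw [natDegree_X_pow]))).trans hL
    have h2 := natDegree_le_of_dvd h1 hh.ne_zero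
    rw [← pow_succ', natDegree_X_pow, hhd] at h2
    exact h2
  have hm2 : 2 ≤ m ∧ m ≤ 2 * z + 1 := by rcases hcase with h1 | h1 <;> omega
  have hodd : Odd (a + m) := by
    rcases hcase with ⟨h1, h2⟩ | ⟨h1, h2⟩
    · rw [h2]; exact h1.add_even (even_two_mul z)
    · rw [h2]; exact h1.add_odd ⟨z, rfl⟩
  have hm1 : (X ^ a * h ^ 4).Monic := (monic_X_pow a).mul (hh.pow 4)
  have hd1 : (X ^ a * h ^ 4).natDegree = 4 * d + a := by
    rw [(monic_X_pow a).natDegree_mul (hh.pow 4), natDegree_X_pow, hh.natDegree_pow, hhd]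
    ring
  have hlt : G.natDegree < (X ^ a * h ^ 4).natDegree := by rw [hd1, hGm]; omega
  have hfm : (X ^ a * h ^ 4 + G).Monic := hm1.add_of_left (degree_lt_degree hlt)
  have hfd : (X ^ a * h ^ 4 + G).natDegree = 4 * d + a := by
    rw [natDegree_add_eq_left_of_natDegree_lt hlt, hd1]
  have hLh : Lz F z ∣ h := (dvd_mul_left _ _).trans hL
  by_cases hGi : Irreducible G
  · -- `G` irreducible
    have hG0 : G.coeff 0 ≠ 0 := by
      intro h0
      have h1 : (X : F[X]) ∣ G := X_dvd_iff.mpr h0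
      have h2 := natDegree_eq_of_dvd hGi not_isUnit_X h1
      rw [natDegree_X] at h2
      omega
    obtain ⟨A, B, hAB⟩ := sq_decomp G
    have hdeg := natDegree_decomp A B z m hm2.2 (by rw [← hAB, hGm])
    have hder : derivative G = B ^ 2 := by rw [hAB, derivative_decomp]
    have h2 : (2 : F[X]) = 0 := CharTwo.two_eq_zero
    have hA0 : A ≠ 0 := by
      rintro rfl
      have h3 : G = X * B ^ 2 := by rw [hAB]; ring
      have h4 : G.coeff 0 = 0 := by rw [h3]; simp
      exact hG0 h4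
    have hB0 : B ≠ 0 := by
      rintro rfl
      have h3 : G = A * A := by rw [hAB]; ring
      have h4 : ¬ IsUnit A := by
        intro h5
        exact hGi.not_isUnit (h3 ▸ h5.mul h5)
      rcases hGi.isUnit_or_isUnit h3 with h5 | h5
      · exact h4 h5
      · exact h4 h5
    rcases hcase with ⟨ha, hmz⟩ | ⟨ha, hmz⟩
    · -- odd
      obtain ⟨y, hy⟩ : X * A ∣ h := (mul_dvd_mul_left X (dvd_Lz z A hA0 hdeg.1)).trans hL
      have ha1 : (C (a : F) : F[X]) = 1 := by
        obtain ⟨r, rfl⟩ := ha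
        have h3 : (2 : F) = 0 := CharTwo.two_eq_zero
        have h4 : (((2 * r + 1 : ℕ)) : F) = 1 := by
          push_cast
          linear_combination (r : F) * h3
        rw [h4, C_1]
      refine not_both (b := 0) (by omega) (by omega) (by omega) hodd (Or.inl ⟨ha, rfl⟩) h G A y hh
        hhd hG hGm hfm hfd hy ?_ hG0 hκ hGi hf
      rw [hder, ha1, hAB]
      linear_combination (-A ^ 2) * h2
    · -- even
      obtain ⟨y, hy⟩ : X * B ∣ h := (mul_dvd_mul_left X (dvd_Lz z B hB0 hdeg.2)).trans hL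
      have ha1 : (C (a : F) : F[X]) = 0 := by
        obtain ⟨r, rfl⟩ := ha
        have h3 : (2 : F) = 0 := CharTwo.two_eq_zero
        have h4 : (((r + r : ℕ)) : F) = 0 := by
          push_cast
          linear_combination (r : F) * h3
        rw [h4, C_0]
      refine not_both (b := 1) (by omega) (by omega) (by omega) hodd (Or.inr ⟨ha, rfl⟩) h G B y hh
        hhd hG hGm hfm hfd hy ?_ hG0 hκ hGi hf
      rw [hder, ha1]
      ring
  · -- `G` reducible
    have hGu : ¬ IsUnit G := by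
      intro h1
      have h2 := natDegree_eq_zero_of_isUnit h1
      omega
    have h1 : ∃ A B : F[X], G = A * B ∧ ¬ IsUnit A ∧ A.natDegree ≤ B.natDegree := by
      rw [irreducible_iff] at hGi
      push Not at hGi
      obtain ⟨A, B, hAB, hA, hB⟩ := hGi hGu
      rcases le_total A.natDegree B.natDegree with h3 | h3
      · exact ⟨A, B, hAB, hA, h3⟩
      · exact ⟨B, A, by rw [hAB, mul_comm], hB, h3⟩
    obtain ⟨A, B, hAB, hA, hle⟩ := h1
    have hG0 : G ≠ 0 := hG.ne_zero
    have hA0 : A ≠ 0 := by rintro rfl; rw [zero_mul] at hAB; exact hG0 hAB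
    have hB0 : B ≠ 0 := by rintro rfl; rw [mul_zero] at hAB; exact hG0 hAB
    have hsum : A.natDegree + B.natDegree = m := by
      rw [← natDegree_mul hA0 hB0, ← hAB, hGm]
    have hAz : A.natDegree ≤ z := by omega
    have hAh : A ∣ h := (dvd_Lz z A hA0 hAz).trans hLh
    have hAf : A ∣ X ^ a * h ^ 4 + G := by
      refine dvd_add (Dvd.dvd.mul_left ?_ _) (hAB ▸ dvd_mul_right A B)
      exact dvd_pow hAh (by norm_num)
    have h3 := natDegree_eq_of_dvd hf hA hAf
    rw [hfd] at h3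
    omega

end Pool.Agent.H62.FF
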