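import Pool.Agent.H62.FF.Low

/-!
# Cramér's random model for polynomials over a finite field
-/

set_option autoImplicit false
set_option linter.unusedSectionVars false

open Polynomial MeasureTheory ProbabilityTheory Filter Topology

namespace Pool.Agent.H62.FF

variable {F Ω : Type*} [Field F] [Fintype F] [MeasurableSpace Ω] {μ : Measure Ω}
  {A : F[X] → Set Ω}

theorem CramerModel.isProb (hA : CramerModel μ A) : IsProbabilityMeasure μ :=
  hA.indep.isProbabilityMeasure

theorem CramerModel.block (hA : CramerModel μ A) {n m : ℕ} (hn : 1 ≤ n) (hm : m ≤ n) (f : F[X])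
    (hf : f.Monic) (hfn : f.natDegree = n) :
    μ.real (⋂ i ∈ block f m, (A i)ᶜ) = (1 - 1 / (n : ℝ)) ^ (Fintype.card F ^ m) := by
  rw [block_compl A hA.meas hA.indep (Pool.Agent.H62.FF.block f m) (1 / (n : ℝ)) ?_, card_block]
  intro i hi
  obtain ⟨h1, h2⟩ := block_monic f hf hfn hm i hi
  rw [hA.prob i h1 (by omega), h2]

/-- Upper bound for the probability of a gap. -/
theorem CramerModel.gap_le (hA : CramerModel μ A) {n m : ℕ} (hn : 1 ≤ n) (hm : m ≤ n) :
    μ.real {ω | GapIn {f | ω ∈ A f} n m} ≤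
      (Fintype.card F : ℝ) ^ n * (1 - 1 / (n : ℝ)) ^ (Fintype.card F ^ m) := by
  classical
  have := hA.isProb
  have hsub : {ω | GapIn {f | ω ∈ A f} n m} ⊆
      ⋃ r ∈ low F n, ⋂ i ∈ Pool.Agent.H62.FF.block (X ^ n + r) m, (A i)ᶜ := by
    rintro ω ⟨-, f, hf, hfn, hg⟩
    obtain ⟨r, hr, rfl⟩ := exists_low n f hf hfn
    refine Set.mem_iUnion₂.mpr ⟨r, hr, Set.mem_iInter₂.mpr (fun i hi => ?_)⟩
    obtain ⟨g, hgm, rfl⟩ := (mem_block _ m i).mp hi
    exact hg g hgm
  refine (measureReal_mono hsub (measure_ne_top μ _)).trans ((measureReal_biUnion_finset_le _ _).trans ?_)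
  have h1 : ∀ r ∈ low F n, μ.real (⋂ i ∈ Pool.Agent.H62.FF.block (X ^ n + r) m, (A i)ᶜ) =
      (1 - 1 / (n : ℝ)) ^ (Fintype.card F ^ m) := by
    intro r hr
    obtain ⟨h2, h3⟩ := top_monic n r ((mem_low n r).mp hr)
    exact hA.block hn hm _ h2 h3
  rw [Finset.sum_congr rfl h1, Finset.sum_const, card_low, nsmul_eq_mul]
  push_cast
  exact le_rfl

/-- Upper bound for the probability that there is no gap. -/
theorem CramerModel.no_gap_le (hA : CramerModel μ A) {n m : ℕ} (hn : 1 ≤ n) (hm : m < n) :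
    μ.real {ω | ¬ GapIn {f | ω ∈ A f} n m} ≤
      (1 - (1 - 1 / (n : ℝ)) ^ (Fintype.card F ^ m)) ^ (Fintype.card F ^ (n - m)) := by
  classical
  have := hA.isProb
  have hsub : {ω | ¬ GapIn {f | ω ∈ A f} n m} ⊆
      ⋂ r ∈ low F (n - m), (⋂ i ∈ Pool.Agent.H62.FF.block (X ^ n + X ^ m * r) m, (A i)ᶜ)ᶜ := by
    intro ω hω
    refine Set.mem_iInter₂.mpr (fun r hr => ?_)
    rw [Set.mem_compl_iff]
    intro h
    obtain ⟨h2, h3⟩ := top_monic n (X ^ m * r) (degree_X_pow_mul_lt hm.le r hr)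
    refine hω ⟨hm, X ^ n + X ^ m * r, h2, h3, fun g hg hmem => ?_⟩
    exact (Set.mem_iInter₂.mp h (X ^ n + X ^ m * r + g) ((mem_block _ m _).mpr ⟨g, hg, rfl⟩)) hmem
  refine (measureReal_mono hsub (measure_ne_top μ _)).trans ?_
  rw [blocks_compl A hA.meas hA.indep (low F (n - m))
    (fun r => Pool.Agent.H62.FF.block (X ^ n + X ^ m * r) m)
    (fun r _ s _ hrs => block_disjoint n m r s hrs)
    ((1 - 1 / (n : ℝ)) ^ (Fintype.card F ^ m)) ?_, card_low]
  intro r hr
  obtain ⟨h2, h3⟩ := top_monic n (X ^ m * r) (degree_X_pow_mul_lt hm.le r hr)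
  exact hA.block hn hm.le _ h2 h3

/-- The part of the first Borel-Cantelli lemma that we use. -/
theorem ae_eventually_of_summable [IsProbabilityMeasure μ] (E : ℕ → Set Ω) (b : ℕ → ℝ)
    (hb : Summable b) (h : ∀ᶠ n in atTop, μ.real (E n) ≤ b n) :
    ∀ᵐ ω ∂μ, ∀ᶠ n in atTop, ω ∉ E n := by
  obtain ⟨N, hN⟩ := eventually_atTop.mp h
  have hs : Summable (fun n => μ.real (E (n + N))) := by
    refine Summable.of_nonneg_of_le (fun _ => measureReal_nonneg) (fun n => hN (n + N) (by omega)) ?_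
    exact (summable_nat_add_iff N).mpr hb
  have h1 : ∑' n, μ (E (n + N)) ≠ ⊤ := by
    have h2 : ∀ n, μ (E (n + N)) = ENNReal.ofReal (μ.real (E (n + N))) := fun n => by
      rw [measureReal_def, ENNReal.ofReal_toReal (measure_ne_top μ _)]
    simp_rw [h2]
    exact hs.tsum_ofReal_ne_top
  filter_upwards [ae_eventually_notMem h1] with ω hω
  obtain ⟨M, hM⟩ := eventually_atTop.mp hω
  refine eventually_atTop.mpr ⟨M + N, fun n hn => ?_⟩
  have := hM (n - N) (by omega)
  rwa [Nat.sub_add_cancel (by omega)] at this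

theorem log_card_pos : 0 < Real.log (Fintype.card F) := by
  refine Real.log_pos ?_
  have : 1 < Fintype.card F := Fintype.one_lt_card
  exact_mod_cast this

theorem card_pow_eq (n : ℕ) : (Fintype.card F : ℝ) ^ n = Real.exp (Real.log (Fintype.card F) * n) := by
  have : (0 : ℝ) < Fintype.card F := by exact_mod_cast Fintype.card_pos
  rw [mul_comm, Real.exp_nat_mul, Real.exp_log this]

/-- In the model, gaps longer than `c n ^ 2`, `c > log q`, do not occur for large `n`. -/
theorem CramerModel.upper (hA : CramerModel μ A) (c : ℝ) (hc : Real.log (Fintype.card F) < c) :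
    ∀ᵐ ω ∂μ, ∀ᶠ n : ℕ in atTop, ∀ m, GapIn {f | ω ∈ A f} n m →
      (Fintype.card F : ℝ) ^ m < c * (n : ℝ) ^ 2 := by
  classical
  have := hA.isProb
  set q : ℝ := ((Fintype.card F : ℕ) : ℝ) with hq
  have hlog : 0 < Real.log q := log_card_pos
  have key := ae_eventually_of_summable (μ := μ)
    (fun n => ⋃ m ∈ (Finset.range n).filter (fun m => c * (n : ℝ) ^ 2 ≤ q ^ m),
      {ω | GapIn {f | ω ∈ A f} n m})
    (fun n => (n : ℝ) ^ 1 * Real.exp (-(c - Real.log q) * n))
    (Real.summable_pow_mul_exp_neg_nat_mul 1 (by linarith)) (by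
      refine eventually_atTop.mpr ⟨1, fun n hn => ?_⟩
      have hn0 : (0 : ℝ) < n := by exact_mod_cast hn
      refine (measureReal_biUnion_finset_le _ _).trans ?_
      have h1 : ∀ m ∈ (Finset.range n).filter (fun m => c * (n : ℝ) ^ 2 ≤ q ^ m),
          μ.real {ω | GapIn {f | ω ∈ A f} n m} ≤ Real.exp (-(c - Real.log q) * n) := by
        intro m hm
        rw [Finset.mem_filter, Finset.mem_range] at hm
        refine (hA.gap_le hn hm.1.le).trans ?_
        have h2 : (1 - 1 / (n : ℝ)) ≤ Real.exp (-(1 / (n : ℝ))) := Real.one_sub_le_exp_neg _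
        have h3 : 0 ≤ 1 - 1 / (n : ℝ) := by
          rw [sub_nonneg, div_le_one hn0]
          exact_mod_cast hn
        have h4 : (1 - 1 / (n : ℝ)) ^ (Fintype.card F ^ m) ≤ Real.exp (-(c * n)) := by
          refine (pow_le_pow_left₀ h3 h2 _).trans ?_
          rw [← Real.exp_nat_mul]
          refine Real.exp_le_exp.mpr ?_
          push_cast
          rw [← hq]
          have h5 : c * (n : ℝ) ^ 2 ≤ q ^ m := hm.2
          have h6 : q ^ m * -(1 / (n : ℝ)) = -(q ^ m / n) := by ring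
          rw [h6, neg_le_neg_iff, le_div_iff₀ hn0]
          nlinarith
        calc (Fintype.card F : ℝ) ^ n * (1 - 1 / (n : ℝ)) ^ (Fintype.card F ^ m)
            ≤ (Fintype.card F : ℝ) ^ n * Real.exp (-(c * n)) :=
              mul_le_mul_of_nonneg_left h4 (by positivity)
          _ = Real.exp (-(c - Real.log q) * n) := by
              rw [card_pow_eq n, ← Real.exp_add]
              congr 1
              ring
      refine (Finset.sum_le_sum h1).trans ?_
      rw [Finset.sum_const, nsmul_eq_mul, pow_one]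
      refine mul_le_mul_of_nonneg_right ?_ (Real.exp_pos _).le
      have h7 := Finset.card_filter_le (Finset.range n) (fun m => c * (n : ℝ) ^ 2 ≤ q ^ m)
      rw [Finset.card_range] at h7
      exact_mod_cast h7)
  filter_upwards [key] with ω hω
  filter_upwards [hω] with n hn m hg
  by_contra hlt
  refine hn (Set.mem_iUnion₂.mpr ⟨m, ?_, hg⟩)
  rw [Finset.mem_filter, Finset.mem_range]
  exact ⟨hg.1, not_lt.mp hlt⟩

/-- In the model, gaps of length at least `c n ^ 2`, `c < log q`, occur for infinitely many `n`. -/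
theorem CramerModel.lower (hA : CramerModel μ A) (c : ℝ) (hc0 : 0 < c)
    (hc : c < Real.log (Fintype.card F)) :
    ∀ᵐ ω ∂μ, ∀ N : ℕ, ∃ n, N ≤ n ∧ ∃ m, GapIn {f | ω ∈ A f} n m ∧
      c * (n : ℝ) ^ 2 < (Fintype.card F : ℝ) ^ m := by
  classical
  have := hA.isProb
  set q : ℝ := ((Fintype.card F : ℕ) : ℝ) with hq
  have hlog : 0 < Real.log q := log_card_pos
  have hq0 : 0 < q := by rw [hq]; exact_mod_cast Fintype.card_pos
  -- the degree attached to `m`
  set x : ℕ → ℝ := fun m => Real.sqrt (q ^ m / c) with hx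
  have hx0 : ∀ m, 0 < x m := fun m => Real.sqrt_pos.mpr (by positivity)
  have hx2 : ∀ m, c * (x m) ^ 2 = q ^ m := by
    intro m
    rw [hx]
    simp only
    rw [Real.sq_sqrt (by positivity)]
    field_simp
  set ν : ℕ → ℕ := fun m => ⌈x m⌉₊ - 1 with hν
  have hceil : ∀ m, 1 ≤ ⌈x m⌉₊ := fun m => Nat.one_le_ceil_iff.mpr (hx0 m)
  have hν1 : ∀ m, (ν m : ℝ) < x m := by
    intro m
    have h1 := Nat.ceil_lt_add_one (hx0 m).le
    have h2 : ((⌈x m⌉₊ - 1 : ℕ) : ℝ) = (⌈x m⌉₊ : ℝ) - 1 := by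
      rw [Nat.cast_sub (hceil m)]; simp
    rw [hν]
    simp only
    rw [h2]
    linarith
  have hν2 : ∀ m, x m ≤ (ν m : ℝ) + 1 := by
    intro m
    have h1 := Nat.le_ceil (x m)
    have h2 : ((⌈x m⌉₊ - 1 : ℕ) : ℝ) = (⌈x m⌉₊ : ℝ) - 1 := by
      rw [Nat.cast_sub (hceil m)]; simp
    rw [hν]
    simp only
    rw [h2]
    linarith
  have hlow : ∀ m, c * (ν m : ℝ) ^ 2 < q ^ m := by
    intro m
    rw [← hx2 m]
    have h1 := hν1 m
    have h2 : (0 : ℝ) ≤ ν m := Nat.cast_nonneg _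
    have h3 : (ν m : ℝ) ^ 2 < (x m) ^ 2 := by nlinarith
    nlinarith
  have hup : ∀ m, q ^ m ≤ c * ((ν m : ℝ) + 1) ^ 2 := by
    intro m
    rw [← hx2 m]
    have h1 := hν2 m
    have h2 := hx0 m
    have h3 : (x m) ^ 2 ≤ ((ν m : ℝ) + 1) ^ 2 := by nlinarith
    nlinarith
  -- `m < ν m` eventually
  have hqm : ∀ m : ℕ, q ^ m = Real.exp (Real.log q * m) := fun m => card_pow_eq m
  have hbig : ∀ᶠ m : ℕ in atTop, c * ((m : ℝ) + 1) ^ 2 < q ^ m := by
    have h1 := (isLittleO_pow_exp_pos_mul_atTop 2 hlog).bound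
      (c := 1 / (8 * c)) (by positivity)
    have h2 := tendsto_natCast_atTop_atTop.eventually h1
    filter_upwards [h2, eventually_ge_atTop 1] with m hm hm1
    have hm1' : (1 : ℝ) ≤ m := by exact_mod_cast hm1
    rw [Real.norm_eq_abs, Real.norm_eq_abs, abs_of_nonneg (by positivity),
      abs_of_nonneg (Real.exp_pos _).le, ← hqm] at hm
    have h3 : ((m : ℝ) + 1) ^ 2 ≤ 4 * (m : ℝ) ^ 2 := by nlinarith
    have h4 : c * (4 * (m : ℝ) ^ 2) ≤ q ^ m / 2 := by
      have h5 : 4 * c * ((m : ℝ) ^ 2) ≤ 4 * c * (1 / (8 * c) * q ^ m) :=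
        mul_le_mul_of_nonneg_left hm (by positivity)
      have h6 : 4 * c * (1 / (8 * c) * q ^ m) = q ^ m / 2 := by
        field_simp
        ring
      linarith
    have h7 : 0 < q ^ m := by positivity
    nlinarith
  have hmν : ∀ᶠ m : ℕ in atTop, m < ν m := by
    filter_upwards [hbig] with m hm
    by_contra h
    have h1 : (ν m : ℝ) ≤ m := by exact_mod_cast not_lt.mp h
    have h2 := hup m
    have h3 : ((ν m : ℝ) + 1) ^ 2 ≤ ((m : ℝ) + 1) ^ 2 := by
      have : (0 : ℝ) ≤ ν m := Nat.cast_nonneg _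
      nlinarith
    nlinarith
  have hνtop : Tendsto ν atTop atTop :=
    tendsto_atTop_mono' _ (hmν.mono (fun m hm => hm.le)) tendsto_id
  -- growth in terms of `n`
  have hδ : 0 < Real.log q - c := by linarith
  have hgrow : ∀ᶠ n : ℕ in atTop, (n : ℝ) * (c * ((n : ℝ) + 1) ^ 2) * Real.exp (7 * c) ≤
      Real.exp ((Real.log q - c) * n) := by
    have h1 := (isLittleO_pow_exp_pos_mul_atTop 3 hδ).bound
      (c := 1 / (4 * c * Real.exp (7 * c))) (by positivity)
    have h2 := tendsto_natCast_atTop_atTop.eventually h1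
    filter_upwards [h2, eventually_ge_atTop 1] with n hn hn1
    have hn1' : (1 : ℝ) ≤ n := by exact_mod_cast hn1
    rw [Real.norm_eq_abs, Real.norm_eq_abs, abs_of_nonneg (by positivity),
      abs_of_nonneg (Real.exp_pos _).le] at hn
    have h3 : (n : ℝ) * (c * ((n : ℝ) + 1) ^ 2) ≤ 4 * c * (n : ℝ) ^ 3 := by
      have h4 : ((n : ℝ) + 1) ^ 2 ≤ 4 * (n : ℝ) ^ 2 := by nlinarith
      calc (n : ℝ) * (c * ((n : ℝ) + 1) ^ 2) ≤ (n : ℝ) * (c * (4 * (n : ℝ) ^ 2)) := by
            gcongr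
        _ = 4 * c * (n : ℝ) ^ 3 := by ring
    have h5 : (n : ℝ) * (c * ((n : ℝ) + 1) ^ 2) * Real.exp (7 * c) ≤
        4 * c * (n : ℝ) ^ 3 * Real.exp (7 * c) :=
      mul_le_mul_of_nonneg_right h3 (Real.exp_pos _).le
    refine h5.trans ?_
    have h6 : 4 * c * (n : ℝ) ^ 3 * Real.exp (7 * c) ≤ 4 * c * Real.exp (7 * c) *
        (1 / (4 * c * Real.exp (7 * c)) * Real.exp ((Real.log q - c) * n)) := by
      calc 4 * c * (n : ℝ) ^ 3 * Real.exp (7 * c) = 4 * c * Real.exp (7 * c) * (n : ℝ) ^ 3 := by ring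
        _ ≤ _ := mul_le_mul_of_nonneg_left hn (by positivity)
    refine h6.trans (le_of_eq ?_)
    have h7 : 4 * c * Real.exp (7 * c) ≠ 0 := by positivity
    field_simp
  have key := ae_eventually_of_summable (μ := μ)
    (fun m => {ω | ¬ GapIn {f | ω ∈ A f} (ν m) m})
    (fun m => (m : ℝ) ^ 0 * Real.exp (-1 * m))
    (Real.summable_pow_mul_exp_neg_nat_mul 0 one_pos) (by
      filter_upwards [hmν, hνtop.eventually hgrow, hνtop.eventually (eventually_ge_atTop 2)] with
        m hm hg hn2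
      set n := ν m with hn
      have hn2' : (2 : ℝ) ≤ n := by exact_mod_cast hn2
      refine (hA.no_gap_le (by omega) hm).trans ?_
      set p : ℝ := (1 - 1 / (n : ℝ)) ^ (Fintype.card F ^ m) with hp
      -- lower bound for p
      have hbase : Real.exp (-(1 / ((n : ℝ) - 1))) ≤ 1 - 1 / (n : ℝ) := by
        have h1 : 1 / ((n : ℝ) - 1) + 1 ≤ Real.exp (1 / ((n : ℝ) - 1)) := Real.add_one_le_exp _
        have h2 : 1 / ((n : ℝ) - 1) + 1 = n / ((n : ℝ) - 1) := by
          have : (n : ℝ) - 1 ≠ 0 := by linarith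
          field_simp
          ring
        rw [h2] at h1
        rw [Real.exp_neg]
        have h3 : 1 - 1 / (n : ℝ) = (n / ((n : ℝ) - 1))⁻¹ := by
          have : (n : ℝ) - 1 ≠ 0 := by linarith
          have : (n : ℝ) ≠ 0 := by linarith
          field_simp
        rw [h3]
        exact inv_anti₀ (div_pos (by linarith) (by linarith)) h1
      have hpl : Real.exp (-(c * ((n : ℝ) + 7))) ≤ p := by
        rw [hp]
        refine le_trans ?_ (pow_le_pow_left₀ (Real.exp_pos _).le hbase _)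
        rw [← Real.exp_nat_mul]
        refine Real.exp_le_exp.mpr ?_
        push_cast
        rw [← hq]
        have h1 := hup m
        rw [← hn] at h1
        have h2 : q ^ m / ((n : ℝ) - 1) ≤ c * ((n : ℝ) + 7) := by
          rw [div_le_iff₀ (by linarith)]
          refine h1.trans ?_
          have h3 : ((n : ℝ) + 1) ^ 2 ≤ ((n : ℝ) + 7) * ((n : ℝ) - 1) := by nlinarith
          calc c * ((n : ℝ) + 1) ^ 2 ≤ c * (((n : ℝ) + 7) * ((n : ℝ) - 1)) :=
                mul_le_mul_of_nonneg_left h3 hc0.le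
            _ = _ := by ring
        have h4 : q ^ m * -(1 / ((n : ℝ) - 1)) = -(q ^ m / ((n : ℝ) - 1)) := by ring
        rw [h4]
        linarith
      have hp1 : p ≤ 1 := by
        rw [hp]
        refine pow_le_one₀ (by rw [sub_nonneg, div_le_one (by linarith)]; linarith) ?_
        have : 0 ≤ 1 / (n : ℝ) := by positivity
        linarith
      have hE : (n : ℝ) ≤ p * q ^ (n - m) := by
        have h1 : q ^ (n - m) * q ^ m = q ^ n := by
          rw [← pow_add]; congr 1; omega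
        have h2 : q ^ n / (c * ((n : ℝ) + 1) ^ 2) ≤ q ^ (n - m) := by
          rw [div_le_iff₀ (by positivity), ← h1]
          exact mul_le_mul_of_nonneg_left (hup m) (by positivity)
        have h3 : (n : ℝ) ≤ Real.exp (-(c * ((n : ℝ) + 7))) * (q ^ n / (c * ((n : ℝ) + 1) ^ 2)) := by
          rw [mul_div_assoc', le_div_iff₀ (by positivity), hqm n, ← Real.exp_add]
          have h4 : -(c * ((n : ℝ) + 7)) + Real.log q * n =
              (Real.log q - c) * n + -(7 * c) := by ring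
          rw [h4, Real.exp_add, Real.exp_neg, ← div_eq_mul_inv, le_div_iff₀ (Real.exp_pos _)]
          exact hg
        refine h3.trans ?_
        exact mul_le_mul hpl h2 (by positivity) (le_trans (Real.exp_pos _).le hpl)
      have h5 : (1 - p) ^ (Fintype.card F ^ (n - m)) ≤ Real.exp (-(p * q ^ (n - m))) := by
        refine (pow_le_pow_left₀ (by linarith) (Real.one_sub_le_exp_neg p) _).trans ?_
        rw [← Real.exp_nat_mul]
        refine Real.exp_le_exp.mpr (le_of_eq ?_)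
        push_cast
        rw [← hq]
        ring
      refine h5.trans ?_
      rw [pow_zero, one_mul]
      refine Real.exp_le_exp.mpr ?_
      have h6 : (m : ℝ) ≤ n := by exact_mod_cast hm.le
      linarith)
  filter_upwards [key] with ω hω
  intro N
  obtain ⟨m, hm1, hm2, hm3⟩ := (hω.and (hmν.and (hνtop.eventually (eventually_ge_atTop N)))).exists
  simp only [not_not] at hm1
  exact ⟨ν m, hm3, m, hm1, hlow m⟩

/-- **The limsup of the gaps in Cramér's random model** is `n ^ 2 log q`. -/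
theorem CramerModel.limsup (hA : CramerModel μ A) :
    ∀ᵐ ω ∂μ, (∀ c : ℝ, Real.log (Fintype.card F) < c → ∃ N : ℕ, ∀ n, N ≤ n → ∀ m,
        GapIn {f | ω ∈ A f} n m → (Fintype.card F : ℝ) ^ m < c * (n : ℝ) ^ 2) ∧
      (∀ c : ℝ, c < Real.log (Fintype.card F) → ∀ N : ℕ, ∃ n, N ≤ n ∧ ∃ m,
        GapIn {f | ω ∈ A f} n m ∧ c * (n : ℝ) ^ 2 < (Fintype.card F : ℝ) ^ m) := by
  have hlog : 0 < Real.log (Fintype.card F) := log_card_pos
  have h1 : ∀ᵐ ω ∂μ, ∀ k : ℕ, ∀ᶠ n : ℕ in atTop, ∀ m, GapIn {f | ω ∈ A f} n m →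
      (Fintype.card F : ℝ) ^ m < (Real.log (Fintype.card F) + 1 / ((k : ℝ) + 1)) * (n : ℝ) ^ 2 :=
    ae_all_iff.mpr (fun k => hA.upper _ (by
      have : 0 < 1 / ((k : ℝ) + 1) := by positivity
      linarith))
  have h2 : ∀ᵐ ω ∂μ, ∀ k : ℕ, ∀ N : ℕ, ∃ n, N ≤ n ∧ ∃ m, GapIn {f | ω ∈ A f} n m ∧
      (Real.log (Fintype.card F) * (1 - 1 / ((k : ℝ) + 2))) * (n : ℝ) ^ 2 <
        (Fintype.card F : ℝ) ^ m :=
    ae_all_iff.mpr (fun k => hA.lower _ (by
      have : 1 / ((k : ℝ) + 2) < 1 := by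
        rw [div_lt_one (by positivity)]
        have : (0 : ℝ) ≤ k := Nat.cast_nonneg k
        linarith
      exact mul_pos hlog (by linarith)) (by
      have : 0 < 1 / ((k : ℝ) + 2) := by positivity
      nlinarith))
  filter_upwards [h1, h2] with ω hω1 hω2
  refine ⟨fun c hc => ?_, fun c hc N => ?_⟩
  · obtain ⟨k, hk⟩ := exists_nat_one_div_lt (sub_pos.mpr hc)
    obtain ⟨N, hN⟩ := eventually_atTop.mp (hω1 k)
    refine ⟨N, fun n hn m hg => (hN n hn m hg).trans_le ?_⟩
    exact mul_le_mul_of_nonneg_right (by linarith) (by positivity)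
  · obtain ⟨k, hk⟩ := exists_nat_one_div_lt (div_pos (sub_pos.mpr hc) hlog)
    obtain ⟨n, hn, m, hg, hlt⟩ := hω2 k N
    refine ⟨n, hn, m, hg, lt_of_le_of_lt ?_ hlt⟩
    refine mul_le_mul_of_nonneg_right ?_ (by positivity)
    have h3 : 1 / ((k : ℝ) + 2) ≤ 1 / ((k : ℝ) + 1) := by
      apply one_div_le_one_div_of_le (by positivity)
      linarith
    rw [lt_div_iff₀ hlog] at hk
    nlinarith

end Pool.Agent.H62.FF
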