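import Pool.Agent.H62.FF.Res

/-!
# The parity obstruction

A polynomial `X ^ a H ^ 4 + G` and the polynomial `G` cannot both have roots permuted cyclically by
a lift of the `q`-Frobenius, when a certain sign condition modulo `8` holds.
-/

set_option autoImplicit false

open Polynomial

namespace Pool.Agent.H62.FF

variable {T k : Type*} [CommRing T] [Field k] (D : Dat T k)

theorem sign_rot (n : ℕ) (hn : 1 ≤ n) :
    (((Equiv.Perm.sign (finRotate n) : ℤˣ) : ℤ)) = (-1) ^ (n - 1) := by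
  obtain ⟨n, rfl⟩ := Nat.exists_eq_add_of_le' hn
  rw [sign_finRotate]
  simp

theorem map_vandermonde {n : ℕ} (hn : 1 ≤ n) (σ : T →+* T) (v : Fin n → T)
    (hv : ∀ i, σ (v i) = v (finRotate n i)) :
    σ (Matrix.vandermonde v).det = (-1) ^ (n - 1) * (Matrix.vandermonde v).det := by
  rw [RingHom.map_det]
  have h1 : σ.mapMatrix (Matrix.vandermonde v) =
      (Matrix.vandermonde v).submatrix (finRotate n) id := by
    ext i j
    simp [Matrix.vandermonde_apply, hv]
  rw [h1, Matrix.det_permute, sign_rot n hn]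
  push_cast
  ring

include D in
/-- There is no `ε` with `ε ^ 2 = 1` and `σ ε = - ε`. -/
theorem no_eps (q : ℕ) (hq : 1 ≤ q) (σ : T →+* T) (hσ : ∀ x, D.π (σ x) = D.π x ^ q) (ε : T)
    (h1 : ε ^ 2 = 1) (h2 : σ ε = - ε) : False := by
  have hπ : D.π ε = 1 := by
    have h3 := congrArg D.π h1
    rw [map_pow, map_one] at h3
    have h4 : (D.π ε - 1) ^ 2 = 0 := by
      linear_combination h3 - D.two_mul_k (D.π ε) + D.two_mul_k 1
    have h5 := pow_eq_zero_iff (by norm_num) |>.mp h4
    exact sub_eq_zero.mp h5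
  obtain ⟨y, hy⟩ := D.ker (ε - 1) (by rw [map_sub, hπ, map_one, sub_self])
  have hε : ε = 1 + 2 * y := by linear_combination hy
  have h3 : D.π (y + y ^ 2) = 0 := by
    refine D.h4 _ ?_
    rw [hε] at h1
    linear_combination h1
  have h4 : D.π (1 + y + σ y) = 0 := by
    refine D.h4 _ ?_
    rw [hε] at h2
    simp only [map_add, map_one, map_mul, map_ofNat] at h2
    linear_combination 2 * h2
  rw [map_add, map_pow] at h3
  rw [map_add, map_add, map_one, hσ] at h4
  have h5 : D.π y * (D.π y + 1) = 0 := by linear_combination h3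
  rcases mul_eq_zero.mp h5 with h6 | h6
  · rw [h6, zero_pow (by omega)] at h4
    norm_num at h4
  · have h7 : D.π y = 1 := by linear_combination h6 - D.two_mul_k 1
    rw [h7, one_pow] at h4
    have h8 : (1 : k) = 0 := by linear_combination h4 - D.two_k
    exact one_ne_zero h8

theorem prod_roots {R : Type*} [CommRing R] {n : ℕ} (v : Fin n → R) :
    (∏ i, (X - C (v i))).eval 0 = (-1) ^ n * ∏ i, v i := by
  rw [eval_prod]
  simp [Finset.prod_neg]

include D in
theorem no_both (q : ℕ) (hq : 1 ≤ q) (σ : T →+* T) (hσ : ∀ x, D.π (σ x) = D.π x ^ q)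
    {n m a d b : ℕ} (hn : n = 4 * d + a) (hd : 1 ≤ d) (hm : 1 ≤ m) (hmn : m ≤ n)
    (hodd : Odd (a + m)) (hb : (Odd a ∧ b = 0) ∨ (Even a ∧ b = 1))
    (Φ : Fin n → T) (Γ : Fin m → T)
    (hΦ : Function.Injective (fun i => D.π (Φ i))) (hΓ : Function.Injective (fun j => D.π (Γ j)))
    (hΦσ : ∀ i, σ (Φ i) = Φ (finRotate n i)) (hΓσ : ∀ i, σ (Γ i) = Γ (finRotate m i))
    (H : T[X]) (hHm : H.Monic) (hHd : H.natDegree = d)
    (hF : ∏ i, (X - C (Φ i)) = X ^ a * H ^ 4 + ∏ j, (X - C (Γ j)))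
    (h0 : ∀ j, D.π (Γ j) ≠ 0)
    (u y : k[X]) (hu : H.map D.π = X * u * y)
    (hQ : (X * derivative (∏ j, (X - C (Γ j))) - C (a : T) * ∏ j, (X - C (Γ j))).map D.π =
      X ^ b * u ^ 2)
    (hκ : ∃ t : ℤ, (-1) ^ (n * (n - 1) / 2 + n + m * (m - 1) / 2) * (1 + 4 * (d : ℤ)) *
      ((m : ℤ) - a) = 1 + 8 * t) : False := by
  classical
  have := D.nontrivial
  have h8 := D.h8
  have hodd' : Odd (n + m) := by
    rw [hn, add_assoc]
    exact Even.add_odd (by simp [Nat.even_mul]; left; decide) hodd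
  have h8X : (8 : T[X]) = 0 := by
    have : (8 : T[X]) = C 8 := (map_ofNat C 8).symm
    rw [this, h8, C_0]
  have hb4 : b ≤ 1 := by omega
  set G : T[X] := ∏ j, (X - C (Γ j)) with hG
  set F : T[X] := ∏ i, (X - C (Φ i)) with hFdef
  set Q : T[X] := X * derivative G - C (a : T) * G with hQdef
  have hGm : G.Monic := monic_prod_lin Γ
  have hGn : G.natDegree = m := natDegree_prod_lin Γ
  -- lifts
  obtain ⟨U, hU⟩ := D.exists_poly u
  obtain ⟨Y, hY⟩ := D.exists_poly y
  obtain ⟨Z, hZ⟩ := D.exists_eq_add H (X * U * Y) (by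
    rw [hu, Polynomial.map_mul, Polynomial.map_mul, hU, hY, map_X])
  obtain ⟨V, hV⟩ := D.exists_eq_add Q (X ^ b * U ^ 2) (by
    rw [hQ, Polynomial.map_mul, Polynomial.map_pow, Polynomial.map_pow, hU, map_X])
  set E : T[X] := X ^ (a + 4 - 2 * b) * Y ^ 4 with hE
  have hXE : X ^ (a + 4 - 2 * b) * (X ^ b) ^ 2 = (X ^ a * X ^ 4 : T[X]) := by
    rw [← pow_mul, ← pow_add, ← pow_add]
    congr 1
    omega
  have hH4 : X ^ a * H ^ 4 = 4 * (E * V ^ 2) + Q * (E * (Q - 4 * V)) := by
    have h1 : H ^ 4 = X ^ 4 * (U ^ 2) ^ 2 * Y ^ 4 := by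
      rw [hZ]
      linear_combination ((X * U * Y) ^ 3 * Z + 3 * (X * U * Y) ^ 2 * Z ^ 2 +
        4 * (X * U * Y) * Z ^ 3 + 2 * Z ^ 4) * h8X
    have h2 : X ^ b * U ^ 2 = Q - 2 * V := by rw [hV]; ring
    calc X ^ a * H ^ 4 = (X ^ a * X ^ 4) * (U ^ 2) ^ 2 * Y ^ 4 := by rw [h1]; ring
      _ = X ^ (a + 4 - 2 * b) * (X ^ b * U ^ 2) ^ 2 * Y ^ 4 := by rw [← hXE]; ring
      _ = _ := by rw [h2, hE]; ring
  -- the values of Q
  have hGΓ : ∀ j, G.eval (Γ j) = 0 := by
    intro j
    rw [hG, eval_prod]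
    exact Finset.prod_eq_zero (Finset.mem_univ j) (by simp)
  have hFΦ : ∀ i, F.eval (Φ i) = 0 := by
    intro i
    rw [hFdef, eval_prod]
    exact Finset.prod_eq_zero (Finset.mem_univ i) (by simp)
  have hQΓ : ∀ j, Q.eval (Γ j) = Γ j * (derivative G).eval (Γ j) := by
    intro j
    rw [hQdef, eval_sub, eval_mul, eval_mul, hGΓ, eval_X, mul_zero, sub_zero]
  have hdΓ : ∀ j, D.π ((derivative G).eval (Γ j)) ≠ 0 := by
    intro j
    have h1 := eval_derivative_ne_zero (fun j => D.π (Γ j)) hΓ j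
    rwa [← map_prod_lin D.π Γ, derivative_map, eval_map_apply] at h1
  have hdΦ : ∀ i, D.π ((derivative F).eval (Φ i)) ≠ 0 := by
    intro j
    have h1 := eval_derivative_ne_zero (fun j => D.π (Φ j)) hΦ j
    rwa [← map_prod_lin D.π Φ, derivative_map, eval_map_apply] at h1
  have hQΓ0 : ∀ j, D.π (Q.eval (Γ j)) ≠ 0 := by
    intro j
    rw [hQΓ, map_mul]
    exact mul_ne_zero (h0 j) (hdΓ j)
  -- the leading coefficient
  set μ : T := (m : T) - a with hμdef
  have hμ : μ * μ = 1 := by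
    obtain ⟨s, hs⟩ : ∃ s : ℤ, ((m : ℤ) - a) * ((m : ℤ) - a) = 1 + 8 * s := by
      have h1 : Odd ((m : ℤ) - a) := by
        obtain ⟨r, hr⟩ := hodd
        refine ⟨(r : ℤ) - a, ?_⟩
        have : (a : ℤ) + m = 2 * r + 1 := by exact_mod_cast hr
        linear_combination this
      have h2 := Int.sq_mod_four_eq_one_of_odd h1
      have h3 := Int.eight_dvd_sq_sub_one_of_odd h1
      obtain ⟨s, hs⟩ := h3
      exact ⟨s, by linear_combination hs⟩
    have := congrArg (Int.cast : ℤ → T) hs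
    push_cast at this
    rw [hμdef]
    linear_combination this + (s : T) * h8
  have hQn : Q.natDegree ≤ m := by
    rw [hQdef]
    refine (natDegree_sub_le _ _).trans (max_le ?_ ?_)
    · refine (natDegree_mul_le).trans ?_
      have h1 := natDegree_derivative_le G
      rw [hGn] at h1
      rw [natDegree_X]
      omega
    · exact (natDegree_C_mul_le _ _).trans hGn.le
  have hQc : Q.coeff m = μ := by
    obtain ⟨m', rfl⟩ := Nat.exists_eq_add_of_le' hm
    have h1 : G.coeff (m' + 1) = 1 := by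
      have h2 := hGm.coeff_natDegree
      rwa [hGn] at h2
    rw [hQdef, coeff_sub, coeff_X_mul, coeff_C_mul, coeff_derivative, h1, hμdef]
    push_cast
    ring
  -- second derivative
  obtain ⟨W, hW⟩ := exists_derivative_derivative G
  have hdQ : derivative Q = derivative G + X * (2 * W) - C (a : T) * derivative G := by
    rw [hQdef, derivative_sub, derivative_mul, derivative_X, one_mul, hW, derivative_C_mul]
  have hdQπ : ∀ j, D.π ((derivative Q).eval (Γ j)) =
      (1 - (a : k)) * D.π ((derivative G).eval (Γ j)) := by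
    intro j
    rw [hdQ]
    have h2 : eval (Γ j) (2 : T[X]) = 2 := by simp
    have h3 : eval (Γ j) (C (a : T)) = a := eval_C
    rw [eval_sub, eval_add, eval_mul, eval_mul, eval_mul, eval_X, h3, h2]
    simp only [map_sub, map_add, map_mul, map_natCast, map_ofNat]
    linear_combination (D.π (Γ j) * D.π (eval (Γ j) W)) * D.two_k
  have hGπ : G.map D.π = ∏ j, (X - C (D.π (Γ j))) := map_prod_lin D.π Γ
  have hFπ : F.map D.π = ∏ j, (X - C (D.π (Φ j))) := map_prod_lin D.π Φ
  have hkey := key_res D hmn hm hodd' μ hμ Φ Γ hΓ Q (E * V ^ 2) (E * (Q - 4 * V)) hQn hQc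
    (by rw [← hFdef, hF, hH4]; ring) hQΓ0 (by
      intro w R' hwn hw
      rcases hb with ⟨ha, rfl⟩ | ⟨ha, rfl⟩
      · -- odd case
        refine Finset.sum_eq_zero (fun j _ => ?_)
        have ha1 : (1 - (a : k)) = 0 := by
          obtain ⟨r, rfl⟩ := ha
          push_cast
          linear_combination (-(r : k)) * D.two_k
        rw [hdQπ, ha1, zero_mul, mul_zero, zero_div]
      · -- even case
        have ha1 : (1 - (a : k)) = 1 := by
          obtain ⟨r, rfl⟩ := ha
          push_cast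
          linear_combination (-(r : k)) * D.two_k
        obtain ⟨w₂, hw₂⟩ : ∃ w₂ : k[X], w.map D.π = X * w₂ := by
          refine ⟨(X ^ (a + 1) * Y ^ 4 * V ^ 2 : T[X]).map D.π - u ^ 2 * R'.map D.π, ?_⟩
          have h1 : w.map D.π = (E * V ^ 2).map D.π - Q.map D.π * R'.map D.π := by
            rw [hw, Polynomial.map_add, Polynomial.map_mul]
            ring
          rw [h1, hQ, hE, show a + 4 - 2 * 1 = a + 1 + 1 by omega]
          simp only [Polynomial.map_mul, Polynomial.map_pow, map_X]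
          ring
        have hterm : ∀ j, D.π (w.eval (Γ j)) * D.π ((derivative Q).eval (Γ j)) /
            (D.π ((derivative G).eval (Γ j)) * D.π (Q.eval (Γ j))) =
            w₂.eval (D.π (Γ j)) / (derivative (∏ j, (X - C (D.π (Γ j))))).eval (D.π (Γ j)) := by
          intro j
          rw [hdQπ, ha1, hQΓ, map_mul, ← eval_map_apply D.π, hw₂, eval_mul, eval_X, ← hGπ,
            derivative_map, eval_map_apply]
          have h1 := h0 j
          have h2 := hdΓ j
          field_simp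
        rw [Finset.sum_congr rfl (fun j _ => hterm j),
          sum_div_derivative (fun j => D.π (Γ j)) hΓ w₂ ?_]
        · have h1 : (X * w₂).coeff (m - 1 + 1) = w₂.coeff (m - 1) := coeff_X_mul _ _
          rw [← h1, ← hw₂, coeff_map, Nat.sub_add_cancel hm, coeff_eq_zero_of_natDegree_lt hwn,
            map_zero]
        · by_cases hw0 : w₂ = 0
          · rw [hw0, natDegree_zero]; omega
          · have h1 : (X * w₂).natDegree = 1 + w₂.natDegree := by
              rw [natDegree_mul X_ne_zero hw0, natDegree_X]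
            rw [← hw₂] at h1
            have h2 : (w.map D.π).natDegree ≤ w.natDegree := natDegree_map_le
            omega)
  -- constant terms
  have hF0 : F.eval 0 = G.eval 0 := by
    rw [hF, eval_add, eval_mul, eval_pow, eval_pow, eval_X]
    have h1 : H.eval 0 = 2 * Z.eval 0 := by
      rw [hZ]
      simp
    rw [h1]
    linear_combination (2 * 0 ^ a * (Z.eval 0) ^ 4) * h8
  have hprod : ∏ i, Φ i = - ∏ j, Γ j := by
    have h1 := prod_roots Φ
    have h2 := prod_roots Γ
    rw [← hFdef, hF0, hG, h2] at h1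
    have h3 : ((-1 : T)) ^ n * (-1) ^ n = 1 := by rw [← mul_pow]; simp
    have h4 : ((-1 : T)) ^ n * (-1) ^ m = -1 := by rw [← pow_add]; exact hodd'.neg_one_pow
    calc ∏ i, Φ i = (-1) ^ n * ((-1) ^ n * ∏ i, Φ i) := by rw [← mul_assoc, h3, one_mul]
      _ = (-1) ^ n * ((-1) ^ m * ∏ j, Γ j) := by rw [h1]
      _ = - ∏ j, Γ j := by rw [← mul_assoc, h4]; ring
  have hprodΓ : D.π (∏ j, Γ j) ≠ 0 := by
    rw [map_prod]
    exact Finset.prod_ne_zero_iff.mpr (fun j _ => h0 j)
  have hΦ0 : ∀ i, D.π (Φ i) ≠ 0 := by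
    have h1 : D.π (∏ i, Φ i) ≠ 0 := by
      rw [hprod, map_neg]
      exact neg_ne_zero.mpr hprodΓ
    rw [map_prod] at h1
    exact fun i => Finset.prod_ne_zero_iff.mp h1 i (Finset.mem_univ i)
  -- values of Q at the roots of F
  have hXF : X * derivative F = C (a : T) * F + Q + 4 * (X ^ (a + 1) * (H ^ 3 * derivative H)) := by
    have h1 : X * derivative (X ^ a : T[X]) = C (a : T) * X ^ a := by
      rcases Nat.eq_zero_or_pos a with rfl | ha
      · simp
      · obtain ⟨a', rfl⟩ := Nat.exists_eq_add_of_le' ha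
        rw [derivative_X_pow, Nat.add_sub_cancel]
        ring
    rw [hF, derivative_add, derivative_mul, hQdef]
    have h2 : derivative (H ^ 4) = 4 * (H ^ 3 * derivative H) := by
      rw [derivative_pow]
      have : (C ((4 : ℕ) : T) : T[X]) = 4 := by
        rw [Nat.cast_ofNat]; exact map_ofNat C 4
      rw [this]
      ring
    rw [h2]
    linear_combination H ^ 4 * h1
  set t : Fin n → T := fun i => Φ i ^ (a + 1) * (H.eval (Φ i) ^ 3 * (derivative H).eval (Φ i))
    with ht
  have hΦF : ∀ i, Φ i * (derivative F).eval (Φ i) = Q.eval (Φ i) + 4 * t i := by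
    intro i
    have h1 := congrArg (eval (Φ i)) hXF
    have h2 : eval (Φ i) (4 : T[X]) = 4 := by simp
    simp only [eval_add, eval_mul, eval_X, eval_C, eval_pow, hFΦ, h2] at h1
    rw [h1, ht]
    ring
  have hQΦπ : ∀ i, D.π (Q.eval (Φ i)) = D.π (Φ i) * D.π ((derivative F).eval (Φ i)) := by
    intro i
    rw [← map_mul, hΦF, map_add]
    have : D.π (4 * t i) = 0 := by
      rw [show 4 * t i = 2 * (2 * t i) by ring]
      exact D.π_two_mul _
    rw [this, add_zero]
  have hQΦ0 : ∀ i, D.π (Q.eval (Φ i)) ≠ 0 := by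
    intro i
    rw [hQΦπ]
    exact mul_ne_zero (hΦ0 i) (hdΦ i)
  have hHπm : (H.map D.π).Monic := hHm.map D.π
  have hHπd : (H.map D.π).natDegree = d := by
    rw [hHm.natDegree_map, hHd]
  have hsum : D.π (d : T) = ∑ i, D.π (t i) / D.π (Q.eval (Φ i)) := by
    set h : k[X] := H.map D.π with hh
    set p : k[X] := X ^ a * (h ^ 3 * derivative h) with hp
    have hpn : p.natDegree < n := by
      rw [hp]
      refine lt_of_le_of_lt natDegree_mul_le ?_
      rw [natDegree_X_pow]
      have h1 : (h ^ 3 * derivative h).natDegree ≤ 3 * d + (d - 1) := by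
        refine natDegree_mul_le.trans ?_
        have h2 : (h ^ 3).natDegree ≤ 3 * d := by
          refine natDegree_pow_le.trans ?_
          rw [hHπd]
        have h3 : (derivative h).natDegree ≤ d - 1 := by
          have := natDegree_derivative_le h
          rwa [hHπd] at this
        omega
      omega
    have hpc : p.coeff (n - 1) = d := by
      have e1 : n - 1 = (3 * d + (d - 1)) + a := by omega
      rw [hp, e1, add_comm _ a, coeff_X_pow_mul' , if_pos (by omega), Nat.add_sub_cancel_left]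
      have h3 : (derivative h).natDegree ≤ d - 1 := by
        have := natDegree_derivative_le h
        rwa [hHπd] at this
      have h2 : (h ^ 3).natDegree ≤ 3 * d := by
        refine natDegree_pow_le.trans ?_
        rw [hHπd]
      rw [coeff_mul_add_eq_of_natDegree_le h2 h3, coeff_derivative]
      have h4 : (h ^ 3).coeff (3 * d) = 1 := by
        have h5 := (hHπm.pow 3).coeff_natDegree
        rwa [hHπm.natDegree_pow, hHπd] at h5
      have h6 : h.coeff (d - 1 + 1) = 1 := by
        have h7 := hHπm.coeff_natDegree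
        rw [hHπd] at h7
        rwa [Nat.sub_add_cancel hd]
      rw [h4, h6, one_mul, one_mul]
      have h7 : d - 1 + 1 = d := Nat.sub_add_cancel hd
      exact_mod_cast congrArg (Nat.cast : ℕ → k) h7
    rw [map_natCast, ← hpc, ← sum_div_derivative (fun i => D.π (Φ i)) hΦ p hpn]
    refine Finset.sum_congr rfl (fun i _ => ?_)
    rw [hQΦπ, ← hFπ, derivative_map, eval_map_apply, ht]
    simp only [map_mul, map_pow]
    rw [hp]
    simp only [eval_mul, eval_pow, eval_X, hh, eval_map_apply, derivative_map]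
    have h1 := hΦ0 i
    have h2 := hdΦ i
    rw [div_eq_div_iff h2 (mul_ne_zero h1 h2)]
    ring
  have hprodF : ∏ i, (Φ i * (derivative F).eval (Φ i)) =
      (1 + 4 * (d : T)) * ∏ i, Q.eval (Φ i) := by
    rw [Finset.prod_congr rfl (fun i _ => hΦF i)]
    exact D.prod_add_four Finset.univ (fun i => Q.eval (Φ i)) t (fun i _ => hQΦ0 i) d hsum
  -- the two products of derivative values
  have hAB : ∏ i, (derivative F).eval (Φ i) =
      (-1) ^ n * (1 + 4 * (d : T)) * μ * ∏ j, (derivative G).eval (Γ j) := by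
    rw [Finset.prod_mul_distrib, hprod, hkey, Finset.prod_congr rfl (fun j _ => hQΓ j),
      Finset.prod_mul_distrib] at hprodF
    obtain ⟨v, hv⟩ := D.isUnit _ hprodΓ
    have hv1 : (∏ j, Γ j) * ↑v⁻¹ = 1 := by rw [← hv]; exact Units.mul_inv v
    have h4 : ((-1 : T)) ^ n = - (-1) ^ m := by
      have h5 : ((-1 : T)) ^ n * (-1) ^ m = -1 := by rw [← pow_add]; exact hodd'.neg_one_pow
      have h3 : ((-1 : T)) ^ m * (-1) ^ m = 1 := by rw [← mul_pow]; simp
      linear_combination (-1) ^ m * h5 - (-1) ^ n * h3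
    rw [h4]
    linear_combination (-(↑v⁻¹ : T)) * hprodF + ((- ∏ i, (derivative F).eval (Φ i)) -
      (1 + 4 * (d : T)) * (-1) ^ m * μ * ∏ j, (derivative G).eval (Γ j)) * hv1 +
      (2 * ∏ i, (derivative F).eval (Φ i)) * hv1 - (2 * ∏ i, (derivative F).eval (Φ i)) * hv1
  -- Vandermonde determinants
  set δF : T := (Matrix.vandermonde Φ).det with hδF
  set δG : T := (Matrix.vandermonde Γ).det with hδG
  have hδF2 : δF ^ 2 = (-1) ^ (n * (n - 1) / 2) * ∏ i, (derivative F).eval (Φ i) := by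
    rw [hδF, vandermonde_sq]
    congr 1
    exact Finset.prod_congr rfl (fun i _ => (eval_derivative_prod_lin Φ i).symm)
  have hδG2 : δG ^ 2 = (-1) ^ (m * (m - 1) / 2) * ∏ i, (derivative G).eval (Γ i) := by
    rw [hδG, vandermonde_sq]
    congr 1
    exact Finset.prod_congr rfl (fun i _ => (eval_derivative_prod_lin Γ i).symm)
  have hsq : δF ^ 2 = δG ^ 2 := by
    obtain ⟨s, hs⟩ := hκ
    have hκT : (-1 : T) ^ (n * (n - 1) / 2 + n + m * (m - 1) / 2) * (1 + 4 * (d : T)) * μ = 1 := by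
      have h1 := congrArg (Int.cast : ℤ → T) hs
      push_cast at h1
      rw [hμdef]
      linear_combination h1 + (s : T) * h8
    have h3 : ((-1 : T)) ^ (m * (m - 1) / 2) * (-1) ^ (m * (m - 1) / 2) = 1 := by
      rw [← mul_pow]; simp
    rw [hδF2, hδG2, hAB]
    rw [pow_add, pow_add] at hκT
    linear_combination (-((-1) ^ (n * (n - 1) / 2) * (-1) ^ n * (1 + 4 * (d : T)) * μ *
      ∏ j, (derivative G).eval (Γ j))) * h3 +
      ((-1) ^ (m * (m - 1) / 2) * ∏ j, (derivative G).eval (Γ j)) * hκT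
  have hδGu : D.π δG ≠ 0 := by
    intro h
    have h1 := congrArg D.π hδG2
    rw [map_pow, h, map_mul, map_pow, map_neg, map_one, map_prod] at h1
    have h2 : (∏ i, D.π ((derivative G).eval (Γ i))) ≠ 0 :=
      Finset.prod_ne_zero_iff.mpr (fun j _ => hdΓ j)
    rw [zero_pow (by norm_num)] at h1
    exact (mul_ne_zero (pow_ne_zero _ (neg_ne_zero.mpr one_ne_zero)) h2) h1.symm
  obtain ⟨v, hv⟩ := D.isUnit _ hδGu
  have hvv : δG * ↑v⁻¹ = 1 := by rw [← hv]; exact Units.mul_inv v
  have hσF := map_vandermonde (by omega : 1 ≤ n) σ Φ hΦσ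
  have hσG := map_vandermonde hm σ Γ hΓσ
  rw [← hδF] at hσF
  rw [← hδG] at hσG
  refine no_eps D q hq σ hσ (δF * ↑v⁻¹) ?_ ?_
  · rw [mul_pow, hsq, ← mul_pow, hvv, one_pow]
  · have h1 : σ (δF * ↑v⁻¹) * ((-1) ^ (m - 1) * δG) = (-1) ^ (n - 1) * δF := by
      rw [← hσG, ← map_mul, mul_assoc, mul_comm (↑v⁻¹ : T) δG, hvv, mul_one, hσF]
    have h5 : ((-1 : T)) ^ (n - 1) * (-1) ^ (m - 1) = -1 := by
      rw [← pow_add]
      refine Odd.neg_one_pow ?_
      rcases hodd' with ⟨r, hr⟩
      exact ⟨r - 1, by omega⟩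
    have h3 : ((-1 : T)) ^ (m - 1) * (-1) ^ (m - 1) = 1 := by rw [← mul_pow]; simp
    calc σ (δF * ↑v⁻¹) = σ (δF * ↑v⁻¹) * (((-1) ^ (m - 1) * (-1) ^ (m - 1)) * (δG * ↑v⁻¹)) := by
          rw [h3, hvv]; ring
      _ = (σ (δF * ↑v⁻¹) * ((-1) ^ (m - 1) * δG)) * ((-1) ^ (m - 1) * ↑v⁻¹) := by ring
      _ = ((-1) ^ (n - 1) * (-1) ^ (m - 1)) * (δF * ↑v⁻¹) := by rw [h1]; ring
      _ = - (δF * ↑v⁻¹) := by rw [h5]; ring

end Pool.Agent.H62.FF
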