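import Pool.Agent.H62.FF.Gap

/-!
# Lengths of the intervals
-/

set_option autoImplicit false
set_option linter.unusedSectionVars false

open Polynomial

namespace Pool.Agent.H62.FF

universe u

variable (F : Type u) [Field F] [Fintype F]

theorem hasGap_zero (n : ℕ) (hn : 2 ≤ n) : HasGap F n 0 := by
  refine ⟨by omega, X ^ n, monic_X_pow n, natDegree_X_pow n, ?_⟩
  intro g hg
  have h0 : g = 0 := by
    by_contra h
    rw [degree_eq_natDegree h] at hg
    exact absurd hg (by simp)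
  rw [h0, add_zero]
  intro h
  exact not_irreducible_pow (by omega) h

/-- The explicit family. -/
theorem gap_explicit [CharP F 2] (z : ℕ) (hz : z % 4 = 1 ∨ z % 4 = 2) :
    HasGap F (4 * S (Fintype.card F) z) (2 * z + 1) := by
  have hodd := S_odd (Fintype.card F) z even_card
  have h := hasGap (F := F) z (2 * z + 1) 0 (S (Fintype.card F) z) (by omega)
    (Or.inr ⟨by decide, rfl⟩) le_rfl (by
      rcases hz with hz | hz
      · exact kap_of _ _ _ (-1) 5 3 (by split_ifs <;> first | rfl | (exfalso; omega)) (by omega)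
          (by omega) (by norm_num)
      · exact kap_of _ _ _ 1 5 5 (by split_ifs <;> first | rfl | (exfalso; omega)) (by omega)
          (by omega) (by norm_num))
  rwa [add_zero] at h

theorem S_sq_lt (q z : ℕ) (hq : 2 ≤ q) :
    (q - 1) ^ 2 * (4 * S q z) ^ 2 < 16 * q * q ^ (2 * z + 1) := by
  have h := S_mul q z (by omega)
  have h1 : (q - 1) * S q z < q ^ (z + 1) := by omega
  have h2 : ((q - 1) * S q z) ^ 2 < (q ^ (z + 1)) ^ 2 := Nat.pow_lt_pow_left h1 (by norm_num)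
  calc (q - 1) ^ 2 * (4 * S q z) ^ 2 = 16 * ((q - 1) * S q z) ^ 2 := by ring
    _ < 16 * (q ^ (z + 1)) ^ 2 := by omega
    _ = 16 * q * q ^ (2 * z + 1) := by ring

theorem gap_infinite [CharP F 2] (N : ℕ) :
    ∃ n, N ≤ n ∧ ∃ m, HasGap F n m ∧
      (Fintype.card F - 1) ^ 2 * n ^ 2 < 16 * Fintype.card F * Fintype.card F ^ m := by
  refine ⟨4 * S (Fintype.card F) (4 * N + 1), ?_, 2 * (4 * N + 1) + 1,
    gap_explicit F _ (Or.inl (by omega)), S_sq_lt _ _ two_le_card⟩
  have := le_S (Fintype.card F) (4 * N + 1) two_le_card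
  omega

theorem exists_S (q d : ℕ) (hq : 2 ≤ q) (hd : S q 3 ≤ d) :
    ∃ z, 3 ≤ z ∧ S q z ≤ d ∧ d < S q (z + 1) := by
  classical
  have hex : ∃ z, d < S q z := ⟨d, by have := le_S q d hq; omega⟩
  have hmono : Monotone (S q) := monotone_nat_of_le_succ (fun z => by rw [S_succ]; omega)
  have h1 := Nat.find_spec hex
  have h2 : 3 < Nat.find hex := by
    by_contra h
    have h3 := hmono (not_lt.mp h)
    omega
  obtain ⟨z, hz⟩ : ∃ z, Nat.find hex = z + 1 := ⟨Nat.find hex - 1, by omega⟩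
  refine ⟨z, by omega, ?_, by rwa [hz] at h1⟩
  have h3 := Nat.find_min hex (m := z) (by omega)
  omega

/-- Intervals in every degree. -/
theorem gap_all [CharP F 2] (n : ℕ) (hn : 2 ≤ n) :
    ∃ m, HasGap F n m ∧ n ^ 2 ≤ 16 * Fintype.card F ^ 8 * Fintype.card F ^ m := by
  set q := Fintype.card F with hqdef
  have hq : 2 ≤ q := two_le_card
  rcases lt_or_ge n (4 * q ^ 4) with h | h
  · refine ⟨0, hasGap_zero F n hn, ?_⟩
    calc n ^ 2 ≤ (4 * q ^ 4) ^ 2 := Nat.pow_le_pow_left h.le 2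
      _ = 16 * q ^ 8 * q ^ 0 := by ring
  · have h3 : S q 3 < q ^ 4 := S_lt q 3 hq
    obtain ⟨z₀, hz₀, h1, h2⟩ := exists_S q (n / 4) hq (by omega)
    obtain ⟨z, m, hz1, hz2, hz3, hcase, hκ⟩ := exists_kap (n % 4) (n / 4) z₀ (by omega) hz₀
    have hmono : Monotone (S q) := monotone_nat_of_le_succ (fun z => by rw [S_succ]; omega)
    have hg := hasGap (F := F) z m (n % 4) (n / 4) hz3 hcase ((hmono hz2).trans h1) hκ
    have hn4 : 4 * (n / 4) + n % 4 = n := by omega
    rw [hn4] at hg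
    refine ⟨m, hg, ?_⟩
    have h4 : S q (z₀ + 1) < q ^ (z₀ + 2) := S_lt q (z₀ + 1) hq
    have h5 : n ≤ 4 * q ^ (z₀ + 2) := by omega
    have hm : 2 * (z₀ - 2) ≤ m := by rcases hcase with h6 | h6 <;> omega
    have h7 : q ^ (2 * (z₀ - 2)) ≤ q ^ m := Nat.pow_le_pow_right (by omega) hm
    calc n ^ 2 ≤ (4 * q ^ (z₀ + 2)) ^ 2 := Nat.pow_le_pow_left h5 2
      _ = 16 * q ^ (2 * z₀ + 4) := by ring
      _ = 16 * q ^ 8 * q ^ (2 * (z₀ - 2)) := by
          rw [mul_assoc, ← pow_add]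
          congr 2
          omega
      _ ≤ 16 * q ^ 8 * q ^ m := Nat.mul_le_mul_left _ h7

/-! ### Comparison with logarithms -/

theorem gap_infinite_real [CharP F 2] (N : ℕ) :
    ∃ n, N ≤ n ∧ 1 ≤ n ∧ ∃ m, HasGap F n m ∧
      ((Fintype.card F : ℝ) - 1) ^ 2 / (16 * Fintype.card F) * (n : ℝ) ^ 2 <
        (Fintype.card F : ℝ) ^ m := by
  obtain ⟨n, hn, m, hg, hlt⟩ := gap_infinite F (N + 1)
  refine ⟨n, by omega, by omega, m, hg, ?_⟩
  have hq : 2 ≤ Fintype.card F := two_le_card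
  have hq' : (0 : ℝ) < Fintype.card F := by
    have : (2 : ℝ) ≤ Fintype.card F := by exact_mod_cast hq
    linarith
  have h1 : (((Fintype.card F - 1) ^ 2 * n ^ 2 : ℕ) : ℝ) <
      ((16 * Fintype.card F * Fintype.card F ^ m : ℕ) : ℝ) := by exact_mod_cast hlt
  push_cast [Nat.cast_sub (by omega : 1 ≤ Fintype.card F)] at h1
  rw [div_mul_eq_mul_div, div_lt_iff₀ (by positivity)]
  linarith

/-- For `q ≥ 128` the gaps exceed the value `n ^ 2 log q` infinitely often. -/
theorem gap_model [CharP F 2] (hF : 128 ≤ Fintype.card F) (N : ℕ) :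
    ∃ n, N ≤ n ∧ ∃ m, HasGap F n m ∧
      (n : ℝ) ^ 2 * Real.log (Fintype.card F) < (Fintype.card F : ℝ) ^ m := by
  obtain ⟨n, hn, hn1, m, hg, hlt⟩ := gap_infinite_real F N
  refine ⟨n, hn, m, hg, lt_of_le_of_lt ?_ hlt⟩
  set q : ℝ := ((Fintype.card F : ℕ) : ℝ) with hq
  have hq128 : (128 : ℝ) ≤ q := by rw [hq]; exact_mod_cast hF
  have hlog : Real.log q ≤ (q - 1) ^ 2 / (16 * q) := by
    have h1 : Real.log q = Real.log 128 + Real.log (q / 128) := by
      rw [← Real.log_mul (by norm_num) (by positivity)]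
      congr 1
      ring
    have h2 : Real.log 128 = 7 * Real.log 2 := by
      rw [show (128 : ℝ) = 2 ^ 7 by norm_num, Real.log_pow]
      norm_num
    have h3 : Real.log 2 < 0.6931471808 := Real.log_two_lt_d9
    have h4 : Real.log (q / 128) ≤ q / 128 - 1 := Real.log_le_sub_one_of_pos (by positivity)
    have h5 : Real.log q ≤ 4 + q / 128 := by
      rw [h1, h2]
      linarith
    refine h5.trans ?_
    rw [le_div_iff₀ (by positivity)]
    nlinarith
  rw [mul_comm]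
  exact mul_le_mul_of_nonneg_right hlog (by positivity)

/-- No constant independent of the field bounds the gaps by a multiple of `(n log q) ^ 2`. -/
theorem gap_uniform (C : ℝ) :
    ∃ Q : ℕ, ∀ (F : Type u) [Field F] [Fintype F] [CharP F 2], Q ≤ Fintype.card F →
      ∀ N : ℕ, ∃ n, N ≤ n ∧ ∃ m, HasGap F n m ∧
        C * ((n : ℝ) * Real.log (Fintype.card F)) ^ 2 < (Fintype.card F : ℝ) ^ m := by
  have hlit : (fun x : ℝ => Real.log x ^ 2) =o[Filter.atTop] (fun x => x) :=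
    Real.isLittleO_pow_log_id_atTop
  have h1 := hlit.bound (c := 1 / (64 * (|C| + 1))) (by positivity)
  obtain ⟨x₀, hx₀⟩ := Filter.eventually_atTop.mp h1
  refine ⟨⌈x₀⌉₊ + 2, ?_⟩
  intro F _ _ _ hF N
  obtain ⟨n, hn, hn1, m, hg, hlt⟩ := gap_infinite_real F N
  refine ⟨n, hn, m, hg, lt_of_le_of_lt ?_ hlt⟩
  set q : ℝ := ((Fintype.card F : ℕ) : ℝ) with hq
  have hq2 : (2 : ℝ) ≤ q := by
    rw [hq]
    exact_mod_cast (by omega : 2 ≤ Fintype.card F)
  have hqx : x₀ ≤ q := by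
    refine (Nat.le_ceil x₀).trans ?_
    rw [hq]
    exact_mod_cast (by omega : ⌈x₀⌉₊ ≤ Fintype.card F)
  have h2 := hx₀ q hqx
  rw [Real.norm_eq_abs, Real.norm_eq_abs, abs_of_nonneg (sq_nonneg _),
    abs_of_nonneg (by linarith : 0 ≤ q)] at h2
  have h3 : C * Real.log q ^ 2 ≤ (q - 1) ^ 2 / (16 * q) := by
    have h4 : C * Real.log q ^ 2 ≤ (|C| + 1) * Real.log q ^ 2 :=
      mul_le_mul_of_nonneg_right (by have := le_abs_self C; linarith) (sq_nonneg _)
    have h5 : (|C| + 1) * Real.log q ^ 2 ≤ q / 64 := by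
      have h6 : (|C| + 1) * Real.log q ^ 2 ≤ (|C| + 1) * (1 / (64 * (|C| + 1)) * q) :=
        mul_le_mul_of_nonneg_left h2 (by positivity)
      have h7 : (|C| + 1) * (1 / (64 * (|C| + 1)) * q) = q / 64 := by
        have : |C| + 1 ≠ 0 := by positivity
        field_simp
      linarith
    have h8 : q / 64 ≤ (q - 1) ^ 2 / (16 * q) := by
      rw [le_div_iff₀ (by positivity)]
      nlinarith
    linarith
  calc C * ((n : ℝ) * Real.log q) ^ 2 = (C * Real.log q ^ 2) * (n : ℝ) ^ 2 := by ring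
    _ ≤ (q - 1) ^ 2 / (16 * q) * (n : ℝ) ^ 2 := mul_le_mul_of_nonneg_right h3 (by positivity)

end Pool.Agent.H62.FF
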