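import Pool.Agent.H62.FF.Ctx

/-!
# Comparison of resultants modulo `8`
-/

set_option autoImplicit false

open Polynomial

namespace Pool.Agent.H62.FF

section
variable {T : Type*} [CommRing T]

theorem isUnit_add_four (h8 : (8 : T) = 0) {a : T} (b : T) (ha : IsUnit a) :
    IsUnit (a + 4 * b) := by
  have h : (a + 4 * b) * (a - 4 * b) = a * a := by
    linear_combination (-(2 * b ^ 2)) * h8
  exact isUnit_of_mul_isUnit_left (h ▸ ha.mul ha)

theorem exists_derivative_derivative (G : T[X]) : ∃ W, derivative (derivative G) = 2 * W := by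
  refine ⟨hasseDeriv 2 G, ?_⟩
  have h := congrArg (fun f : T[X] → T[X] => f G) (factorial_smul_hasseDeriv (R := T) 2)
  simp only [Function.iterate_succ, Function.iterate_zero, Function.comp_apply,
    id_eq, Nat.factorial] at h
  rw [← h]
  simp [two_mul]

/-- Taylor expansion for a step divisible by `4`. -/
theorem eval_add_four (h8 : (8 : T) = 0) (P : T[X]) (x e : T) :
    P.eval (x + 4 * e) = P.eval x + 4 * (e * (derivative P).eval x) := by
  obtain ⟨k, hk⟩ := binomExpansion P x (4 * e)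
  rw [hk]
  linear_combination (2 * k * e ^ 2) * h8

theorem four_eval_add_four (h8 : (8 : T) = 0) (w : T[X]) (x e : T) :
    4 * w.eval (x + 4 * e) = 4 * w.eval x := by
  rw [eval_add_four h8 w x e]
  linear_combination (2 * (derivative w).eval x * e) * h8

/-- Adding `4 w` to a product of linear factors moves the roots by multiples of `4`. -/
theorem perturb [Nontrivial T] (h8 : (8 : T) = 0) {m : ℕ} (Γ e : Fin m → T)
    (hu : ∀ j, IsUnit ((derivative (∏ j, (X - C (Γ j)))).eval (Γ j)))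
    (w : T[X]) (hw : w.natDegree < m)
    (he : ∀ j, e j * (derivative (∏ j, (X - C (Γ j)))).eval (Γ j) = - w.eval (Γ j)) :
    (∏ j, (X - C (Γ j))) + 4 * w = ∏ j, (X - C (Γ j + 4 * e j)) := by
  classical
  set G : T[X] := ∏ j, (X - C (Γ j)) with hG
  have hGm : G.Monic := monic_prod_lin Γ
  have hGn : G.natDegree = m := natDegree_prod_lin Γ
  have h4w : ((4 : T[X]) * w).natDegree < m := by
    have h4 : (4 : T[X]) = C 4 := (map_ofNat C 4).symm
    rw [h4]
    exact lt_of_le_of_lt (natDegree_C_mul_le _ _) hw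
  have hdeg : ((4 : T[X]) * w).degree < G.degree := by
    rw [degree_eq_natDegree hGm.ne_zero, hGn]
    exact lt_of_le_of_lt degree_le_natDegree (by exact_mod_cast h4w)
  refine eq_prod_of_roots _ ?_ _ (hGm.add_of_left hdeg) ?_ ?_
  · intro i j hij
    have h1 : IsUnit (Γ i - Γ j) := by
      have h2 := hu i
      rw [hG, eval_derivative_prod_lin] at h2
      have h3 : (Γ i - Γ j) ∣ ∏ j ∈ Finset.univ.erase i, (Γ i - Γ j) :=
        Finset.dvd_prod_of_mem _ (by simp [Ne.symm hij])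
      exact isUnit_of_dvd_unit h3 h2
    have h2 := isUnit_add_four h8 (e i - e j) h1
    have h3 : Γ i + 4 * e i - (Γ j + 4 * e j) = Γ i - Γ j + 4 * (e i - e j) := by ring
    rw [h3]
    exact h2
  · rw [natDegree_add_eq_left_of_degree_lt hdeg, hGn]
  · intro j
    have hroot : G.eval (Γ j) = 0 := by
      rw [hG, eval_prod]
      exact Finset.prod_eq_zero (Finset.mem_univ j) (by simp)
    have h4 : eval (Γ j + 4 * e j) ((4 : T[X]) * w) = 4 * w.eval (Γ j) := by
      rw [eval_mul, ← four_eval_add_four h8 w (Γ j) (e j)]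
      simp
    rw [eval_add, h4, eval_add_four h8, hroot, he j]
    ring

end

variable {T k : Type*} [CommRing T] [Field k] (D : Dat T k)

include D in
/-- The main comparison: the values of `Q` at the roots of `F = G + 4 w' + Q R` and at the roots of
`G`. -/
theorem key_res {n m : ℕ} (hmn : m ≤ n) (hm : 1 ≤ m) (hodd : Odd (n + m))
    (μ : T) (hμ : μ * μ = 1) (Φ : Fin n → T) (Γ : Fin m → T)
    (hΓ : Function.Injective (fun j => D.π (Γ j))) (Q w' R : T[X])
    (hQn : Q.natDegree ≤ m) (hQc : Q.coeff m = μ)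
    (hF : ∏ i, (X - C (Φ i)) = (∏ j, (X - C (Γ j))) + 4 * w' + Q * R)
    (hQΓ : ∀ j, D.π (Q.eval (Γ j)) ≠ 0)
    (hs : ∀ w R' : T[X], w.natDegree < m → w' = w + Q * R' →
      ∑ j, D.π (w.eval (Γ j)) * D.π ((derivative Q).eval (Γ j)) /
        (D.π ((derivative (∏ j, (X - C (Γ j)))).eval (Γ j)) * D.π (Q.eval (Γ j))) = 0) :
    ∏ i, Q.eval (Φ i) = (-1) ^ m * μ * ∏ j, Q.eval (Γ j) := by
  classical
  have := D.nontrivial
  have h8 := D.h8
  set G : T[X] := ∏ j, (X - C (Γ j)) with hG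
  have hCμ : (C μ : T[X]) * C μ = 1 := by rw [← C_mul, hμ, C_1]
  have hGn : G.natDegree = m := natDegree_prod_lin Γ
  set Q₁ : T[X] := C μ * Q with hQ₁
  have hQQ : Q = C μ * Q₁ := by rw [hQ₁, ← mul_assoc, hCμ, one_mul]
  have hQ₁n : Q₁.natDegree ≤ m := (natDegree_C_mul_le _ _).trans hQn
  have hQ₁c : Q₁.coeff m = 1 := by rw [hQ₁, coeff_C_mul, hQc, hμ]
  have hQ₁m : Q₁.Monic := monic_of_natDegree_le_of_coeff_eq_one _ hQ₁n hQ₁c
  have hQ₁d : Q₁.natDegree = m :=
    le_antisymm hQ₁n (le_natDegree_of_ne_zero (by rw [hQ₁c]; exact one_ne_zero))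
  -- the congruence
  obtain ⟨w, q₂, hdiv, hwn⟩ : ∃ w q₂ : T[X], w + Q₁ * q₂ = w' ∧ w.natDegree < m := by
    refine ⟨w' %ₘ Q₁, w' /ₘ Q₁, modByMonic_add_div _ Q₁, ?_⟩
    have hne : Q₁ ≠ 1 := by
      intro h
      rw [h, natDegree_one] at hQ₁d
      omega
    have h1 := natDegree_modByMonic_lt w' hQ₁m hne
    rwa [hQ₁d] at h1
  obtain ⟨R'', hR''⟩ : ∃ R'' : T[X], G + 4 * w' + Q * R = (G + 4 * w) + Q₁ * R'' := by
    refine ⟨4 * q₂ + C μ * R, ?_⟩
    rw [← hdiv]
    conv_lhs => rw [hQQ]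
    ring
  have hFn : (G + 4 * w + Q₁ * R'').natDegree = n := by
    rw [← hR'', ← hF]; exact natDegree_prod_lin Φ
  have hG1n : (G + 4 * w).natDegree ≤ m := by
    refine (natDegree_add_le _ _).trans (max_le hGn.le ?_)
    have h4 : (4 : T[X]) = C 4 := (map_ofNat C 4).symm
    rw [h4]
    exact (natDegree_C_mul_le _ _).trans hwn.le
  have hRn : R''.natDegree + m ≤ n := by
    by_cases hQ0 : R'' = 0
    · rw [hQ0, natDegree_zero]; omega
    · have h1 : (Q₁ * R'').natDegree = Q₁.natDegree + R''.natDegree := hQ₁m.natDegree_mul' hQ0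
      have h2 : Q₁ * R'' = (G + 4 * w + Q₁ * R'') - (G + 4 * w) := by ring
      have h3 : (Q₁ * R'').natDegree ≤ n := by
        rw [h2]
        exact (natDegree_sub_le _ _).trans (max_le hFn.le (hG1n.trans hmn))
      omega
  have hdΓ : ∀ j, D.π ((derivative G).eval (Γ j)) ≠ 0 := by
    intro j
    have h1 := eval_derivative_ne_zero (fun j => D.π (Γ j)) hΓ j
    rwa [← map_prod_lin D.π Γ, derivative_map, eval_map_apply] at h1
  have hu : ∀ j, IsUnit ((derivative G).eval (Γ j)) := fun j => D.isUnit _ (hdΓ j)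
  choose u hu' using hu
  set e : Fin m → T := fun j => -(w.eval (Γ j)) * ↑(u j)⁻¹ with he
  have heG : ∀ j, e j * (derivative G).eval (Γ j) = - w.eval (Γ j) := by
    intro j
    rw [he, ← hu' j]
    simp [mul_assoc]
  have hε := perturb h8 Γ e (fun j => D.isUnit _ (hdΓ j)) w hwn heG
  -- resultants
  have e1 : ∏ i, Q₁.eval (Φ i) =
      (-1) ^ (n * m) * Q₁.resultant (∏ i, (X - C (Φ i))) m n := by
    rw [← resultant_prod_lin Φ Q₁ m hQ₁n, resultant_comm]
  have e2 : Q₁.resultant (∏ i, (X - C (Φ i))) m n = Q₁.resultant (G + 4 * w) m m := by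
    rw [hF, hR'', resultant_add_mul_right _ _ _ _ _ hRn hQ₁n]
    obtain ⟨k, rfl⟩ := Nat.exists_eq_add_of_le hmn
    rw [resultant_add_right_deg _ _ _ _ _ hG1n, hQ₁c, one_pow, one_mul]
  have e3 : Q₁.resultant (G + 4 * w) m m = (-1) ^ (m * m) * ∏ j, Q₁.eval (Γ j + 4 * e j) := by
    rw [resultant_comm, hε, resultant_prod_lin _ Q₁ m hQ₁n]
  have e4 : ∏ j, Q.eval (Γ j + 4 * e j) = ∏ j, Q.eval (Γ j) := by
    rw [Finset.prod_congr rfl (fun j _ => eval_add_four h8 Q (Γ j) (e j)),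
      D.prod_add_four Finset.univ (fun j => Q.eval (Γ j))
        (fun j => e j * (derivative Q).eval (Γ j)) (fun j _ => hQΓ j) 0 ?_]
    · ring
    · rw [map_zero]
      symm
      have h1 := hs w (C μ * q₂) hwn (by rw [← hdiv, hQ₁]; ring)
      rw [← neg_eq_zero, ← Finset.sum_neg_distrib] at h1
      rw [← h1]
      refine Finset.sum_congr rfl (fun j _ => ?_)
      have h2 := congrArg D.π (heG j)
      rw [map_mul, map_neg] at h2
      rw [map_mul, eq_div_of_mul_eq (hdΓ j) h2]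
      have h3 := hdΓ j
      have h4 := hQΓ j
      field_simp
  have hC : ∀ {N : ℕ} (v : Fin N → T), ∏ i, Q₁.eval (v i) = μ ^ N * ∏ i, Q.eval (v i) := by
    intro N v
    have : ∀ i, Q₁.eval (v i) = μ * Q.eval (v i) := by
      intro i
      rw [hQ₁, eval_mul, eval_C]
    simp [this, Finset.prod_mul_distrib]
  have e5 : μ ^ n * ∏ i, Q.eval (Φ i) =
      (-1) ^ (n * m) * ((-1) ^ (m * m) * (μ ^ m * ∏ j, Q.eval (Γ j))) := by
    rw [← hC, e1, e2, e3, hC, e4]
  have hs1 : ((-1 : T)) ^ (n * m) * (-1) ^ (m * m) = (-1) ^ m := by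
    rw [← pow_add, ← add_mul, pow_mul, hodd.neg_one_pow]
  have hμn : μ ^ n * μ ^ n = 1 := by rw [← mul_pow, hμ, one_pow]
  have hμnm : μ ^ n * μ ^ m = μ := by
    rw [← pow_add]
    obtain ⟨t, ht⟩ := hodd
    rw [ht, pow_succ, pow_mul, pow_two, hμ, one_pow, one_mul]
  calc ∏ i, Q.eval (Φ i) = (μ ^ n * μ ^ n) * ∏ i, Q.eval (Φ i) := by rw [hμn, one_mul]
    _ = μ ^ n * (μ ^ n * ∏ i, Q.eval (Φ i)) := by ring
    _ = ((-1) ^ (n * m) * (-1) ^ (m * m)) * (μ ^ n * μ ^ m) * ∏ j, Q.eval (Γ j) := by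
        rw [e5]; ring
    _ = (-1) ^ m * μ * ∏ j, Q.eval (Γ j) := by rw [hs1, hμnm]

end Pool.Agent.H62.FF
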